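import Mathlib

namespace Pool.Agent.Lib.MP_354e85_al

/-- biorthogonality count -/
theorem bridge_bound {E α : Type*} [Fintype E] [DecidableEq α] (V : Finset α) (s t : E → α)
    (hs : ∀ e, s e ∈ V) (ht : ∀ e, t e ∈ V) (Q : E → Prop)
    (h1 : ∀ e, ¬ Q e → ∃ S : Set α, ¬ (s e ∈ S ↔ t e ∈ S) ∧
      ∀ e', e' ≠ e → (s e' ∈ S ↔ t e' ∈ S))
    (h0 : ∀ e, Q e → ∃ S : Set α, ¬ (s e ∈ S ↔ t e ∈ S) ∧
      ∀ e', Q e' → e' ≠ e → (s e' ∈ S ↔ t e' ∈ S)) :
    Fintype.card E ≤ V.card := by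
  classical
  let v : E → (V → ℚ) := fun e => Pi.single ⟨t e, ht e⟩ 1 - Pi.single ⟨s e, hs e⟩ 1
  let φ : Set α → (V → ℚ) →ₗ[ℚ] ℚ := fun S =>
    { toFun := fun w => ∑ x : V, if (x : α) ∈ S then w x else 0
      map_add' := by
        intro a b
        rw [← Finset.sum_add_distrib]
        refine Finset.sum_congr rfl fun x _ => ?_
        split_ifs <;> simp
      map_smul' := by
        intro c a
        simp only [Pi.smul_apply, smul_eq_mul, RingHom.id_apply, Finset.mul_sum]
        refine Finset.sum_congr rfl fun x _ => ?_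
        split_ifs <;> simp }
  have hφ1 : ∀ (S : Set α) (x : V), φ S (Pi.single x 1) = if (x : α) ∈ S then 1 else 0 := by
    intro S x
    change (∑ z : V, if (z : α) ∈ S then (Pi.single x 1 : V → ℚ) z else 0) = _
    rw [Finset.sum_eq_single x]
    · simp
    · intro z _ hz
      simp [Pi.single_eq_of_ne hz]
    · intro h; exact absurd (Finset.mem_univ _) h
  have hφ : ∀ (S : Set α) (e : E), φ S (v e) =
      (if t e ∈ S then 1 else 0) - (if s e ∈ S then 1 else 0) := by
    intro S e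
    change φ S (Pi.single ⟨t e, ht e⟩ 1 - Pi.single ⟨s e, hs e⟩ 1) = _
    rw [map_sub, hφ1, hφ1]
  have hφ0 : ∀ (S : Set α) (e : E), (s e ∈ S ↔ t e ∈ S) → φ S (v e) = 0 := by
    intro S e h
    rw [hφ]
    by_cases hh : s e ∈ S
    · simp [hh, h.1 hh]
    · have : t e ∉ S := fun h' => hh (h.2 h')
      simp [hh, this]
  have hφn : ∀ (S : Set α) (e : E), ¬ (s e ∈ S ↔ t e ∈ S) → φ S (v e) ≠ 0 := by
    intro S e h
    rw [hφ]
    by_cases hh : s e ∈ S
    · have : t e ∉ S := fun h' => h ⟨fun _ => h', fun _ => hh⟩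
      simp [hh, this]
    · have : t e ∈ S := by
        by_contra h'
        exact h ⟨fun h'' => absurd h'' hh, fun h'' => absurd h'' h'⟩
      simp [hh, this]
  have hli : LinearIndependent ℚ v := by
    rw [Fintype.linearIndependent_iff]
    intro c hc
    have key1 : ∀ e, ¬ Q e → c e = 0 := by
      intro e he
      obtain ⟨S, hS1, hS2⟩ := h1 e he
      have : φ S (∑ i, c i • v i) = 0 := by rw [hc]; simp
      rw [map_sum, Finset.sum_eq_single e] at this
      · rw [map_smul, smul_eq_mul] at this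
        rcases mul_eq_zero.1 this with h | h
        · exact h
        · exact absurd h (hφn S e hS1)
      · intro e' _ he'
        rw [map_smul, hφ0 S e' (hS2 e' he'), smul_zero]
      · intro h; exact absurd (Finset.mem_univ _) h
    intro e
    by_cases he : Q e
    · obtain ⟨S, hS1, hS2⟩ := h0 e he
      have : φ S (∑ i, c i • v i) = 0 := by rw [hc]; simp
      rw [map_sum, Finset.sum_eq_single e] at this
      · rw [map_smul, smul_eq_mul] at this
        rcases mul_eq_zero.1 this with h | h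
        · exact h
        · exact absurd h (hφn S e hS1)
      · intro e' _ he'
        by_cases hq : Q e'
        · rw [map_smul, hφ0 S e' (hS2 e' hq he'), smul_zero]
        · rw [key1 e' hq, zero_smul, map_zero]
      · intro h; exact absurd (Finset.mem_univ _) h
    · exact key1 e he
  have := hli.fintype_card_le_finrank
  simpa using this

variable {H : Type*} [Group H]

/-- The lift to `H` of the set of edges `D` of the Cayley graph of `H ⧸ K` is connected. -/
def Conn (K : Subgroup H) {ι : Type*} (y : ι → H) (D : Set ((H ⧸ K) × ι)) : Prop :=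
  ∀ S : Set H, S.Nonempty →
    (∀ (h : H) (i : ι), ((h : H ⧸ K), i) ∈ D → (h ∈ S ↔ h * y i ∈ S)) → S = Set.univ

theorem conn_univ (K : Subgroup H) {ι : Type*} (y : ι → H)
    (hy : Subgroup.closure (Set.range y) = ⊤) : Conn K y Set.univ := by
  intro S hS hcl
  have hstep : ∀ i h, h ∈ S ↔ h * y i ∈ S := fun i h => hcl h i (Set.mem_univ _)
  have hall : ∀ k : H, ∀ h, h ∈ S ↔ h * k ∈ S := by
    intro k
    have hk : k ∈ Subgroup.closure (Set.range y) := by rw [hy]; trivial
    induction hk using Subgroup.closure_induction with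
    | mem x hx =>
      obtain ⟨i, rfl⟩ := hx
      exact hstep i
    | one => intro h; simp
    | mul a b _ _ ha hb =>
      intro h
      rw [← mul_assoc]
      exact (ha h).trans (hb (h * a))
    | inv a _ ha =>
      intro h
      have := ha (h * a⁻¹)
      rw [inv_mul_cancel_right] at this
      exact this.symm
  obtain ⟨h0, hh0⟩ := hS
  ext k
  simp only [Set.mem_univ, iff_true]
  have := (hall (h0⁻¹ * k) h0).1 hh0
  simpa using this

theorem sep_of_not_conn (K : Subgroup H) [K.Normal] {ι : Type*} (y : ι → H)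
    (D : Set ((H ⧸ K) × ι)) (hD : Conn K y D) (e : (H ⧸ K) × ι)
    (hnot : ¬ Conn K y (D \ {e})) (h : H) (hh : (h : H ⧸ K) = e.1) :
    ∃ S : Set H, ¬ (h ∈ S ↔ h * y e.2 ∈ S) ∧
      ∀ (h' : H) (i' : ι), ((h' : H ⧸ K), i') ∈ D → ((h' : H ⧸ K), i') ≠ e →
        (h' ∈ S ↔ h' * y i' ∈ S) := by
  unfold Conn at hnot
  push Not at hnot
  obtain ⟨S, hne, hcl, hS⟩ := hnot
  have : ¬ ∀ (h : H) (i : ι), ((h : H ⧸ K), i) ∈ D → (h ∈ S ↔ h * y i ∈ S) :=
    fun h' => hS (hD S hne h')
  push Not at this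
  obtain ⟨h0, i0, hmem, hdiff⟩ := this
  have he : ((h0 : H ⧸ K), i0) = e := by
    by_contra hcon
    have := hcl h0 i0 ⟨hmem, hcon⟩
    rcases hdiff with ⟨h1, h2⟩ | ⟨h1, h2⟩
    · exact h2 (this.1 h1)
    · exact h1 (this.2 h2)
  subst he
  have hdiff' : ¬ (h0 ∈ S ↔ h0 * y i0 ∈ S) := by
    rcases hdiff with ⟨h1, h2⟩ | ⟨h1, h2⟩
    · exact fun hc => h2 (hc.1 h1)
    · exact fun hc => h1 (hc.2 h2)
  refine ⟨{x | h0 * h⁻¹ * x ∈ S}, ?_, ?_⟩
  · have e1 : h0 * h⁻¹ * h = h0 := by group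
    have e2 : h0 * h⁻¹ * (h * y i0) = h0 * y i0 := by group
    simp only [Set.mem_ofPred_eq]
    rw [e1, e2]
    exact hdiff'
  · intro h' i' hD' hne'
    have hk : ((h0 * h⁻¹ * h' : H) : H ⧸ K) = (h' : H ⧸ K) := by
      have : ((h0 * h⁻¹ * h' : H) : H ⧸ K) = (h0 : H ⧸ K) * (h : H ⧸ K)⁻¹ * (h' : H ⧸ K) := rfl
      rw [this, hh]
      simp
    have := hcl (h0 * h⁻¹ * h') i' ⟨by rw [hk]; exact hD', by rw [hk]; exact hne'⟩
    simp only [Set.mem_ofPred_eq]
    rw [this, mul_assoc]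


theorem exists_min (K : Subgroup H) [Fintype (H ⧸ K)] {ι : Type*} [Fintype ι] [DecidableEq ι]
    (y : ι → H) (hy : Subgroup.closure (Set.range y) = ⊤) (D0 : Finset ((H ⧸ K) × ι)) :
    ∃ D : Finset ((H ⧸ K) × ι), D0 ⊆ D ∧ Conn K y (D : Set ((H ⧸ K) × ι)) ∧
      ∀ e ∈ D, e ∉ D0 → ¬ Conn K y ((D : Set ((H ⧸ K) × ι)) \ {e}) := by
  classical
  obtain ⟨D, hD, hmin⟩ := Finset.exists_min_image
    ((Finset.univ : Finset (Finset ((H ⧸ K) × ι))).filter
      (fun D => D0 ⊆ D ∧ Conn K y (D : Set ((H ⧸ K) × ι)))) Finset.card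
    ⟨Finset.univ, by
      simp only [Finset.mem_filter, Finset.mem_univ, true_and, Finset.subset_univ,
        Finset.coe_univ]
      exact conn_univ K y hy⟩
  simp only [Finset.mem_filter, Finset.mem_univ, true_and] at hD hmin
  refine ⟨D, hD.1, hD.2, ?_⟩
  intro e he he0 hc
  have h1 := hmin (D.erase e) ⟨?_, ?_⟩
  · have := Finset.card_erase_lt_of_mem he
    omega
  · intro x hx
    rw [Finset.mem_erase]
    exact ⟨fun h => he0 (h ▸ hx), hD.1 hx⟩
  · rw [Finset.coe_erase]
    exact hc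

theorem gen_count (K : Subgroup H) [K.Normal] [Fintype (H ⧸ K)] {ι : Type*} [Fintype ι]
    [DecidableEq ι] (y : ι → H) (D : Finset ((H ⧸ K) × ι))
    (hD : Conn K y (D : Set ((H ⧸ K) × ι))) :
    ∃ T : Finset H, Subgroup.closure (T : Set H) = K ∧
      T.card + Fintype.card (H ⧸ K) ≤ D.card + 1 := by
  classical
  have grow : ∀ n, 1 ≤ n → n ≤ Fintype.card (H ⧸ K) →
      ∃ (W : Finset (H ⧸ K)) (t : H ⧸ K → H) (DT : Finset ((H ⧸ K) × ι)),
        W.card = n ∧ (1 : H ⧸ K) ∈ W ∧ (∀ c ∈ W, ((t c : H) : H ⧸ K) = c) ∧ DT ⊆ D ∧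
        DT.card + 1 = n ∧ ∀ e ∈ DT, e.1 ∈ W ∧ e.1 * ((y e.2 : H) : H ⧸ K) ∈ W ∧
          t e.1 * y e.2 = t (e.1 * ((y e.2 : H) : H ⧸ K)) := by
    intro n hn
    induction n, hn using Nat.le_induction with
    | base =>
      intro _
      refine ⟨{1}, fun _ => 1, ∅, by simp, by simp, ?_, by simp, by simp, by simp⟩
      intro c hc
      rw [Finset.mem_singleton] at hc
      rw [hc]
      rfl
    | succ n hn ih =>
      intro hle
      obtain ⟨W, t, DT, hW, h1W, ht, hDT, hc, hE⟩ := ih (by omega)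
      -- an edge leaving W
      have hne : ((fun h : H => (h : H ⧸ K)) ⁻¹' (W : Set (H ⧸ K))) ≠ Set.univ := by
        intro h
        have : W = Finset.univ := by
          ext c
          simp only [Finset.mem_univ, iff_true]
          obtain ⟨x, rfl⟩ := QuotientGroup.mk_surjective c
          have : x ∈ ((fun h : H => (h : H ⧸ K)) ⁻¹' (W : Set (H ⧸ K))) := by rw [h]; trivial
          exact this
        rw [this, Finset.card_univ] at hW
        omega
      have hne2 : ((fun h : H => (h : H ⧸ K)) ⁻¹' (W : Set (H ⧸ K))).Nonempty := by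
        refine ⟨1, ?_⟩
        exact h1W
      have hnot : ¬ ∀ (h : H) (i : ι), ((h : H ⧸ K), i) ∈ (D : Set ((H ⧸ K) × ι)) →
          (h ∈ ((fun h : H => (h : H ⧸ K)) ⁻¹' (W : Set (H ⧸ K))) ↔
            h * y i ∈ ((fun h : H => (h : H ⧸ K)) ⁻¹' (W : Set (H ⧸ K)))) :=
        fun hcl => hne (hD _ hne2 hcl)
      push Not at hnot
      obtain ⟨h, i, hmem, hdiff⟩ := hnot
      have hmul : ((h * y i : H) : H ⧸ K) = (h : H ⧸ K) * ((y i : H) : H ⧸ K) := rfl
      simp only [Set.mem_preimage, Finset.mem_coe] at hdiff hmem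
      rw [hmul] at hdiff
      have hnotDT : ((h : H ⧸ K), i) ∉ DT := by
        intro hin
        have := hE _ hin
        rcases hdiff with ⟨h1, h2⟩ | ⟨h1, h2⟩
        · exact h2 this.2.1
        · exact h1 this.1
      rcases hdiff with ⟨h1, h2⟩ | ⟨h1, h2⟩
      · -- h ∈ W, h y ∉ W
        set c' : H ⧸ K := (h : H ⧸ K) * ((y i : H) : H ⧸ K) with hc'
        have hup : ∀ c ∈ W, Function.update t c' (t (h : H ⧸ K) * y i) c = t c := by
          intro c hcW
          rw [Function.update_of_ne]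
          rintro rfl
          exact h2 hcW
        refine ⟨insert c' W, Function.update t c' (t (h : H ⧸ K) * y i),
          insert ((h : H ⧸ K), i) DT, ?_, ?_, ?_, ?_, ?_, ?_⟩
        · rw [Finset.card_insert_of_notMem h2, hW]
        · exact Finset.mem_insert_of_mem h1W
        · intro c hcW
          rw [Finset.mem_insert] at hcW
          rcases hcW with rfl | hcW
          · rw [Function.update_self]
            have : ((t (h : H ⧸ K) * y i : H) : H ⧸ K) =
              ((t (h : H ⧸ K) : H) : H ⧸ K) * ((y i : H) : H ⧸ K) := rfl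
            rw [this, ht _ h1]
          · rw [hup c hcW]
            exact ht c hcW
        · intro e he
          rw [Finset.mem_insert] at he
          rcases he with rfl | he
          · exact hmem
          · exact hDT he
        · rw [Finset.card_insert_of_notMem hnotDT, hc]
        · intro e he
          rw [Finset.mem_insert] at he
          rcases he with rfl | he
          · refine ⟨Finset.mem_insert_of_mem h1, Finset.mem_insert_self _ _, ?_⟩
            simp only
            rw [hup _ h1, ← hc', Function.update_self]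
          · obtain ⟨ha, hb, hcc⟩ := hE e he
            refine ⟨Finset.mem_insert_of_mem ha, Finset.mem_insert_of_mem hb, ?_⟩
            rw [hup _ ha, hup _ hb]
            exact hcc
      · -- h ∉ W, h y ∈ W
        set c1 : H ⧸ K := (h : H ⧸ K) * ((y i : H) : H ⧸ K) with hc1
        have hup : ∀ c ∈ W, Function.update t (h : H ⧸ K) (t c1 * (y i)⁻¹) c = t c := by
          intro c hcW
          rw [Function.update_of_ne]
          rintro rfl
          exact h1 hcW
        refine ⟨insert (h : H ⧸ K) W, Function.update t (h : H ⧸ K) (t c1 * (y i)⁻¹),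
          insert ((h : H ⧸ K), i) DT, ?_, ?_, ?_, ?_, ?_, ?_⟩
        · rw [Finset.card_insert_of_notMem h1, hW]
        · exact Finset.mem_insert_of_mem h1W
        · intro c hcW
          rw [Finset.mem_insert] at hcW
          rcases hcW with rfl | hcW
          · rw [Function.update_self]
            have : ((t c1 * (y i)⁻¹ : H) : H ⧸ K) =
              ((t c1 : H) : H ⧸ K) * (((y i : H) : H ⧸ K))⁻¹ := rfl
            rw [this, ht _ h2, hc1]
            simp
          · rw [hup c hcW]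
            exact ht c hcW
        · intro e he
          rw [Finset.mem_insert] at he
          rcases he with rfl | he
          · exact hmem
          · exact hDT he
        · rw [Finset.card_insert_of_notMem hnotDT, hc]
        · intro e he
          rw [Finset.mem_insert] at he
          rcases he with rfl | he
          · refine ⟨Finset.mem_insert_self _ _, Finset.mem_insert_of_mem h2, ?_⟩
            simp only
            rw [Function.update_self, ← hc1, hup _ h2]
            simp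
          · obtain ⟨ha, hb, hcc⟩ := hE e he
            refine ⟨Finset.mem_insert_of_mem ha, Finset.mem_insert_of_mem hb, ?_⟩
            rw [hup _ ha, hup _ hb]
            exact hcc
  obtain ⟨W, t, DT, hW, h1W, ht, hDT, hc, hE⟩ := grow (Fintype.card (H ⧸ K))
    Fintype.card_pos le_rfl
  have hWu : W = Finset.univ := by
    rw [← Finset.card_eq_iff_eq_univ, hW]
  have ht' : ∀ c, ((t c : H) : H ⧸ K) = c := fun c => ht c (by rw [hWu]; exact Finset.mem_univ _)
  let k : (H ⧸ K) × ι → H := fun e => t e.1 * y e.2 * (t (e.1 * ((y e.2 : H) : H ⧸ K)))⁻¹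
  have hkK : ∀ e, k e ∈ K := by
    intro e
    rw [← QuotientGroup.eq_one_iff]
    have : ((k e : H) : H ⧸ K) = ((t e.1 : H) : H ⧸ K) * ((y e.2 : H) : H ⧸ K) *
      (((t (e.1 * ((y e.2 : H) : H ⧸ K))) : H) : H ⧸ K)⁻¹ := rfl
    rw [this, ht', ht']
    simp
  refine ⟨(D \ DT).image k, ?_, ?_⟩
  · apply le_antisymm
    · rw [Subgroup.closure_le]
      intro x hx
      simp only [Finset.coe_image, Set.mem_image] at hx
      obtain ⟨e, _, rfl⟩ := hx
      exact hkK e
    · set K' := Subgroup.closure (((D \ DT).image k : Finset H) : Set H) with hK'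
      have hk' : ∀ e ∈ D, k e ∈ K' := by
        intro e he
        by_cases h : e ∈ DT
        · have : k e = 1 := by
            change t e.1 * y e.2 * (t (e.1 * ((y e.2 : H) : H ⧸ K)))⁻¹ = 1
            rw [(hE e h).2.2, mul_inv_cancel]
          rw [this]
          exact one_mem _
        · apply Subgroup.subset_closure
          rw [Finset.mem_coe, Finset.mem_image]
          exact ⟨e, Finset.mem_sdiff.2 ⟨he, h⟩, rfl⟩
      have hS := hD {h : H | h * (t (h : H ⧸ K))⁻¹ ∈ K'} ⟨t 1, ?_⟩ ?_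
      · intro x hx
        have h1 : (1 : H) ∈ {h : H | h * (t (h : H ⧸ K))⁻¹ ∈ K'} := by rw [hS]; trivial
        have h2 : x ∈ {h : H | h * (t (h : H ⧸ K))⁻¹ ∈ K'} := by rw [hS]; trivial
        simp only [Set.mem_ofPred_eq] at h1 h2
        have hx1 : (x : H ⧸ K) = ((1 : H) : H ⧸ K) := by
          rw [(QuotientGroup.eq_one_iff x).2 hx]
          rfl
        rw [hx1] at h2
        have := K'.mul_mem h2 (K'.inv_mem h1)
        simpa using this
      · simp only [Set.mem_ofPred_eq]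
        rw [ht' 1, mul_inv_cancel]
        exact one_mem _
      · intro h i hmem
        simp only [Set.mem_ofPred_eq]
        have hmul : ((h * y i : H) : H ⧸ K) = (h : H ⧸ K) * ((y i : H) : H ⧸ K) := rfl
        have e1 : h * y i * (t ((h * y i : H) : H ⧸ K))⁻¹ =
            (h * (t (h : H ⧸ K))⁻¹) * k ((h : H ⧸ K), i) := by
          rw [hmul]
          change _ = (h * (t (h : H ⧸ K))⁻¹) * (t (h : H ⧸ K) * y i *
            (t ((h : H ⧸ K) * ((y i : H) : H ⧸ K)))⁻¹)
          group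
        rw [e1]
        exact (K'.mul_mem_cancel_right (hk' _ hmem)).symm
  · have h1 : ((D \ DT).image k).card ≤ (D \ DT).card := Finset.card_image_le
    have h2 : (D \ DT).card + DT.card = D.card := by
      rw [Finset.card_sdiff_add_card_eq_card hDT]
    omega


theorem past_closed (g : H) (hg : ∀ n : ℕ, 0 < n → g ^ n ≠ 1) (f : H) :
    ¬ (f ∈ {x : H | ∃ j : ℕ, x * g ^ j = f} ↔ f * g ∈ {x : H | ∃ j : ℕ, x * g ^ j = f}) ∧
      ∀ f', f' ≠ f → (f' ∈ {x : H | ∃ j : ℕ, x * g ^ j = f} ↔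
        f' * g ∈ {x : H | ∃ j : ℕ, x * g ^ j = f}) := by
  constructor
  · intro h
    have h1 : f ∈ {x : H | ∃ j : ℕ, x * g ^ j = f} := ⟨0, by simp⟩
    obtain ⟨j, hj⟩ := h.1 h1
    apply hg (j + 1) (by omega)
    rw [mul_assoc, ← pow_succ'] at hj
    exact mul_eq_left.1 hj
  · intro f' hf'
    simp only [Set.mem_ofPred_eq]
    constructor
    · rintro ⟨j, hj⟩
      rcases j with _ | j
      · exact absurd (by simpa using hj) hf'
      · refine ⟨j, ?_⟩
        rw [mul_assoc, ← pow_succ']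
        exact hj
    · rintro ⟨j, hj⟩
      refine ⟨j + 1, ?_⟩
      rw [mul_assoc, ← pow_succ'] at hj
      exact hj

theorem card_translates (K : Subgroup H) [K.Normal] [Fintype (H ⧸ K)] {ι : Type*} [Fintype ι]
    [DecidableEq ι] [DecidableEq H] [DecidableEq (H ⧸ K)]
    (y : ι → H) (D : Finset ((H ⧸ K) × ι))
    (hD : Conn K y (D : Set ((H ⧸ K) × ι))) (P : ι → Prop)
    (hP1 : ∀ i j, P i → P j → i = j) (hPg : ∀ i, P i → ∀ n : ℕ, 0 < n → y i ^ n ≠ 1)
    (hmin : ∀ e ∈ D, ¬ P e.2 → ¬ Conn K y ((D : Set ((H ⧸ K) × ι)) \ {e}))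
    (A : Finset (H × ι)) (V : Finset H) (hA : ∀ p ∈ A, p.1 ∈ V ∧ p.1 * y p.2 ∈ V)
    (hinj : ∀ p ∈ A, ∀ q ∈ A, ((p.1 : H) : H ⧸ K) = ((q.1 : H) : H ⧸ K) → p.1 = q.1) :
    ∑ p ∈ A, (Finset.univ.filter (fun c : H ⧸ K => (c, p.2) ∈ D)).card ≤
      Fintype.card (H ⧸ K) * V.card := by
  have hbound : ∀ c : H ⧸ K,
      (A.filter (fun p => (c * ((p.1 : H) : H ⧸ K), p.2) ∈ D)).card ≤ V.card := by
    intro c
    obtain ⟨u, rfl⟩ := QuotientGroup.mk_surjective c
    set E := A.filter (fun p => ((u : H ⧸ K) * ((p.1 : H) : H ⧸ K), p.2) ∈ D) with hE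
    have hEm : ∀ e : E, e.1 ∈ A ∧ ((u : H ⧸ K) * ((e.1.1 : H) : H ⧸ K), e.1.2) ∈ D := by
      intro e
      exact Finset.mem_filter.1 e.2
    have := bridge_bound (E := E) V (fun e => e.1.1) (fun e => e.1.1 * y e.1.2)
      (fun e => (hA _ (hEm e).1).1) (fun e => (hA _ (hEm e).1).2) (fun e => P e.1.2) ?_ ?_
    · rwa [Fintype.card_coe] at this
    · intro e hPe
      obtain ⟨S, hS1, hS2⟩ := sep_of_not_conn K y (D : Set ((H ⧸ K) × ι)) hD
        ((u : H ⧸ K) * ((e.1.1 : H) : H ⧸ K), e.1.2) (hmin _ (hEm e).2 hPe) (u * e.1.1) rfl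
      refine ⟨{x | u * x ∈ S}, ?_, ?_⟩
      · simp only [Set.mem_ofPred_eq]
        rw [← mul_assoc]
        exact hS1
      · intro e' hne
        simp only [Set.mem_ofPred_eq]
        rw [← mul_assoc]
        apply hS2
        · exact (hEm e').2
        · intro hc
          apply hne
          rw [Prod.mk.injEq] at hc
          obtain ⟨hc1, hc2⟩ := hc
          have hc1' : (u : H ⧸ K) * ((e'.1.1 : H) : H ⧸ K) = (u : H ⧸ K) * ((e.1.1 : H) : H ⧸ K) :=
            hc1
          have h3 := hinj _ (hEm e').1 _ (hEm e).1 (mul_left_cancel hc1')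
          apply Subtype.ext
          exact Prod.ext h3 hc2
    · intro e hPe
      obtain ⟨h1, h2⟩ := past_closed (y e.1.2) (hPg _ hPe) e.1.1
      refine ⟨_, h1, ?_⟩
      intro e' hPe' hne
      have hi : e'.1.2 = e.1.2 := hP1 _ _ hPe' hPe
      have hn : e'.1.1 ≠ e.1.1 := by
        intro hc
        exact hne (Subtype.ext (Prod.ext hc hi))
      simp only [hi]
      exact h2 e'.1.1 hn
  calc ∑ p ∈ A, (Finset.univ.filter (fun c : H ⧸ K => (c, p.2) ∈ D)).card
      = ∑ p ∈ A, (Finset.univ.filter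
          (fun c : H ⧸ K => (c * ((p.1 : H) : H ⧸ K), p.2) ∈ D)).card := by
        refine Finset.sum_congr rfl fun p _ => ?_
        symm
        apply Finset.card_bij (fun c _ => c * ((p.1 : H) : H ⧸ K))
        · intro c hc
          simp only [Finset.mem_filter, Finset.mem_univ, true_and] at hc ⊢
          exact hc
        · intro c _ c' _ h
          exact mul_right_cancel h
        · intro c hc
          simp only [Finset.mem_filter, Finset.mem_univ, true_and] at hc
          refine ⟨c * ((p.1 : H) : H ⧸ K)⁻¹, ?_, ?_⟩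
          · simp only [Finset.mem_filter, Finset.mem_univ, true_and, inv_mul_cancel_right]
            exact hc
          · simp
    _ = ∑ p ∈ A, ∑ c : H ⧸ K, (if (c * ((p.1 : H) : H ⧸ K), p.2) ∈ D then 1 else 0) := by
        refine Finset.sum_congr rfl fun p _ => ?_
        rw [Finset.card_filter]
    _ = ∑ c : H ⧸ K, ∑ p ∈ A, (if (c * ((p.1 : H) : H ⧸ K), p.2) ∈ D then 1 else 0) :=
        Finset.sum_comm
    _ = ∑ c : H ⧸ K, (A.filter (fun p => (c * ((p.1 : H) : H ⧸ K), p.2) ∈ D)).card := by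
        refine Finset.sum_congr rfl fun c _ => ?_
        rw [Finset.card_filter]
    _ ≤ ∑ _c : H ⧸ K, V.card := Finset.sum_le_sum fun c _ => hbound c
    _ = Fintype.card (H ⧸ K) * V.card := by
        rw [Finset.sum_const, Finset.card_univ, smul_eq_mul]


/-- The set of the products `v * s i` with `v ∈ F`. -/
noncomputable def nb {m : ℕ} (s : Fin m → H) (F : Finset H) : Finset H :=
  by classical exact F.biUnion fun v => Finset.univ.image fun i => v * s i

theorem mem_nb {m : ℕ} (s : Fin m → H) (F : Finset H) (x : H) :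
    x ∈ nb s F ↔ ∃ v ∈ F, ∃ i, v * s i = x := by
  classical
  simp [nb]

/-- Hall's condition. -/
def HallC {m n : ℕ} (s₁ : Fin m → H) (s₂ : Fin n → H) (F₁ F₂ : Finset H) : Prop :=
  ∃ V : Finset H, (∀ x, x ∈ V ↔ x ∈ nb s₁ F₁ ∨ x ∈ nb s₂ F₂) ∧ F₁.card + F₂.card ≤ V.card

theorem rf_avoid [Group.ResiduallyFinite H] (X : Finset H) (hX : ∀ x ∈ X, x ≠ 1) :
    ∃ K : Subgroup H, K.Normal ∧ K.FiniteIndex ∧ ∀ x ∈ X, x ∉ K := by
  classical
  induction X using Finset.induction_on with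
  | empty => exact ⟨⊤, inferInstance, inferInstance, by simp⟩
  | insert a X _ ih =>
    obtain ⟨K, h1, h2, h3⟩ := ih fun x hx => hX x (Finset.mem_insert_of_mem hx)
    obtain ⟨L, hL⟩ := Group.exists_finiteIndexNormalSubgroup_notMem a
      (hX a (Finset.mem_insert_self _ _))
    refine ⟨L.toSubgroup ⊓ K, inferInstance, inferInstance, ?_⟩
    intro x hx
    rw [Finset.mem_insert] at hx
    rcases hx with rfl | hx
    · intro hc
      exact hL (Subgroup.mem_inf.1 hc).1
    · intro hc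
      exact h3 x hx (Subgroup.mem_inf.1 hc).2

/-- the number of `i`-edges in `D` -/
def nD (K : Subgroup H) [Fintype (H ⧸ K)] {ι : Type*} [DecidableEq ι] [DecidableEq (H ⧸ K)]
    (D : Finset ((H ⧸ K) × ι)) (i : ι) : ℕ :=
  (Finset.univ.filter (fun c : H ⧸ K => (c, i) ∈ D)).card

theorem nD_le (K : Subgroup H) [Fintype (H ⧸ K)] {ι : Type*} [DecidableEq ι]
    [DecidableEq (H ⧸ K)] (D : Finset ((H ⧸ K) × ι)) (i : ι) :
    nD K D i ≤ Fintype.card (H ⧸ K) := by
  unfold nD
  exact Finset.card_le_univ _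

theorem sum_nD (K : Subgroup H) [Fintype (H ⧸ K)] {ι : Type*} [Fintype ι] [DecidableEq ι]
    [DecidableEq (H ⧸ K)] (D : Finset ((H ⧸ K) × ι)) :
    ∑ i, nD K D i = D.card := by
  have : D.card = ∑ i, (D.filter (fun e => e.2 = i)).card := by
    rw [Finset.card_eq_sum_card_fiberwise (f := fun e => e.2) (t := Finset.univ)]
    intro x _
    exact Finset.mem_coe.2 (Finset.mem_univ _)
  rw [this]
  refine Finset.sum_congr rfl fun i _ => ?_
  unfold nD
  apply Finset.card_bij (fun c _ => (c, i))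
  · intro c hc
    simp only [Finset.mem_filter, Finset.mem_univ, true_and] at hc ⊢
    exact ⟨hc, trivial⟩
  · intro c _ c' _ h
    exact (Prod.ext_iff.1 h).1
  · rintro ⟨c, j⟩ hc
    simp only [Finset.mem_filter] at hc
    obtain ⟨h1, rfl⟩ := hc
    exact ⟨c, by simp [h1], rfl⟩

theorem arith3 (m f1 f2 un x z w : ℕ) (hx : x ≤ m) (hw : w ≤ m)
    (h1 : f1 ≤ un) (h2 : f2 ≤ un) (hs : 2 * m ≤ x + z + w) :
    m * (f1 + f2) ≤ f1 * x + un * z + f2 * w := by
  rcases le_total f1 f2 with h | h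
  · obtain ⟨d, rfl⟩ := Nat.exists_eq_add_of_le h
    have : (f1 + d) * z ≤ un * z := Nat.mul_le_mul_right _ h2
    have e1 : m ≤ z + w := by omega
    nlinarith [Nat.mul_le_mul_left f1 hs, Nat.mul_le_mul_left d e1]
  · obtain ⟨d, rfl⟩ := Nat.exists_eq_add_of_le h
    have : (f2 + d) * z ≤ un * z := Nat.mul_le_mul_right _ h1
    have e1 : m ≤ x + z := by omega
    nlinarith [Nat.mul_le_mul_left f2 hs, Nat.mul_le_mul_left d e1]

theorem hall3 (K : Subgroup H) [K.Normal] [Fintype (H ⧸ K)] {ι : Type*} [Fintype ι]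
    [DecidableEq ι] [DecidableEq (H ⧸ K)]
    (y : ι → H) (D : Finset ((H ⧸ K) × ι))
    (hD : Conn K y (D : Set ((H ⧸ K) × ι)))
    (hmin : ∀ e ∈ D, ¬ Conn K y ((D : Set ((H ⧸ K) × ι)) \ {e}))
    (i j k : ι) (hij : i ≠ j) (hik : i ≠ k) (hjk : j ≠ k)
    (hs : 2 * Fintype.card (H ⧸ K) ≤ nD K D i + nD K D j + nD K D k)
    (F₁ F₂ : Finset H)
    (hinj : ∀ p q, (p ∈ F₁ ∨ p ∈ F₂) → (q ∈ F₁ ∨ q ∈ F₂) → ((p : H) : H ⧸ K) = ((q : H) : H ⧸ K) →
      p = q) :
    HallC ![1, y i, y j] ![1, y j, y k] F₁ F₂ := by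
  classical
  let V : Finset H := nb ![1, y i, y j] F₁ ∪ nb ![1, y j, y k] F₂
  refine ⟨V, fun x => by simp [V], ?_⟩
  let A : Finset (H × ι) := F₁ ×ˢ {i} ∪ (F₁ ∪ F₂) ×ˢ {j} ∪ F₂ ×ˢ {k}
  have hpos : 0 < Fintype.card (H ⧸ K) := Fintype.card_pos
  have hmem1 : ∀ f ∈ F₁, f ∈ V ∧ f * y i ∈ V ∧ f * y j ∈ V := by
    intro f hf
    simp only [V, Finset.mem_union, mem_nb]
    refine ⟨Or.inl ⟨f, hf, 0, by simp⟩, Or.inl ⟨f, hf, 1, by simp⟩, Or.inl ⟨f, hf, 2, by simp⟩⟩
  have hmem2 : ∀ f ∈ F₂, f ∈ V ∧ f * y j ∈ V ∧ f * y k ∈ V := by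
    intro f hf
    simp only [V, Finset.mem_union, mem_nb]
    refine ⟨Or.inr ⟨f, hf, 0, by simp⟩, Or.inr ⟨f, hf, 1, by simp⟩, Or.inr ⟨f, hf, 2, by simp⟩⟩
  have hAm : ∀ p : H × ι, p ∈ A ↔ ((p.1 ∈ F₁ ∧ p.2 = i) ∨ ((p.1 ∈ F₁ ∨ p.1 ∈ F₂) ∧ p.2 = j)) ∨
      (p.1 ∈ F₂ ∧ p.2 = k) := by
    intro p
    simp only [A, Finset.mem_union, Finset.mem_product, Finset.mem_singleton]
  have key := card_translates K y D hD (fun _ => False) (fun _ _ h => h.elim)
    (fun _ h => h.elim) (fun e he _ => hmin e he) A V ?_ ?_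
  · have hsum : ∑ p ∈ A, (Finset.univ.filter (fun c : H ⧸ K => (c, p.2) ∈ D)).card =
        F₁.card * nD K D i + (F₁ ∪ F₂).card * nD K D j + F₂.card * nD K D k := by
      rw [Finset.sum_union, Finset.sum_union]
      · rw [Finset.sum_product, Finset.sum_product, Finset.sum_product]
        simp only [Finset.sum_singleton, Finset.sum_const, smul_eq_mul]
        rfl
      · rw [Finset.disjoint_left]
        rintro ⟨a, b⟩ h1 h2
        simp only [Finset.mem_product, Finset.mem_singleton] at h1 h2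
        exact hij (h1.2.symm.trans h2.2)
      · rw [Finset.disjoint_left]
        rintro ⟨a, b⟩ h1 h2
        simp only [Finset.mem_union, Finset.mem_product, Finset.mem_singleton] at h1 h2
        rcases h1 with h1 | h1
        · exact hik (h1.2.symm.trans h2.2)
        · exact hjk (h1.2.symm.trans h2.2)
    rw [hsum] at key
    have h3 := arith3 (Fintype.card (H ⧸ K)) F₁.card F₂.card (F₁ ∪ F₂).card (nD K D i) (nD K D j)
      (nD K D k) (nD_le K D i) (nD_le K D k)
      (Finset.card_le_card Finset.subset_union_left)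
      (Finset.card_le_card Finset.subset_union_right) hs
    exact Nat.le_of_mul_le_mul_left (h3.trans key) hpos
  · intro p hp
    rw [hAm] at hp
    rcases hp with (⟨h1, h2⟩ | ⟨h1, h2⟩) | ⟨h1, h2⟩
    · rw [h2]; exact ⟨(hmem1 _ h1).1, (hmem1 _ h1).2.1⟩
    · rw [h2]
      rcases h1 with h1 | h1
      · exact ⟨(hmem1 _ h1).1, (hmem1 _ h1).2.2⟩
      · exact ⟨(hmem2 _ h1).1, (hmem2 _ h1).2.1⟩
    · rw [h2]; exact ⟨(hmem2 _ h1).1, (hmem2 _ h1).2.2⟩
  · intro p hp q hq h
    rw [hAm] at hp hq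
    apply hinj _ _ _ _ h
    · tauto
    · tauto

theorem hall2 (K : Subgroup H) [K.Normal] [Fintype (H ⧸ K)] {ι : Type*} [Fintype ι]
    [DecidableEq ι] [DecidableEq (H ⧸ K)]
    (y : ι → H) (D : Finset ((H ⧸ K) × ι))
    (hD : Conn K y (D : Set ((H ⧸ K) × ι))) (o : ι)
    (ho : ∀ n : ℕ, 0 < n → y o ^ n ≠ 1) (hoD : ∀ c, (c, o) ∈ D)
    (hmin : ∀ e ∈ D, e.2 ≠ o → ¬ Conn K y ((D : Set ((H ⧸ K) × ι)) \ {e}))
    (j k : ι) (hij : o ≠ j) (hik : o ≠ k) (hjk : j ≠ k)
    (hs : Fintype.card (H ⧸ K) ≤ nD K D j + nD K D k)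
    (F₁ F₂ : Finset H)
    (hinj : ∀ p q, (p ∈ F₁ ∨ p ∈ F₂) → (q ∈ F₁ ∨ q ∈ F₂) → ((p : H) : H ⧸ K) = ((q : H) : H ⧸ K) →
      p = q) :
    HallC ![1, y o] ![1, y j, y k] F₁ F₂ := by
  classical
  let V : Finset H := nb ![1, y o] F₁ ∪ nb ![1, y j, y k] F₂
  refine ⟨V, fun x => by simp [V], ?_⟩
  let A : Finset (H × ι) := F₁ ×ˢ {o} ∪ F₂ ×ˢ {j} ∪ F₂ ×ˢ {k}
  have hpos : 0 < Fintype.card (H ⧸ K) := Fintype.card_pos
  have hmem1 : ∀ f ∈ F₁, f ∈ V ∧ f * y o ∈ V := by
    intro f hf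
    simp only [V, Finset.mem_union, mem_nb]
    refine ⟨Or.inl ⟨f, hf, 0, by simp⟩, Or.inl ⟨f, hf, 1, by simp⟩⟩
  have hmem2 : ∀ f ∈ F₂, f ∈ V ∧ f * y j ∈ V ∧ f * y k ∈ V := by
    intro f hf
    simp only [V, Finset.mem_union, mem_nb]
    refine ⟨Or.inr ⟨f, hf, 0, by simp⟩, Or.inr ⟨f, hf, 1, by simp⟩, Or.inr ⟨f, hf, 2, by simp⟩⟩
  have hAm : ∀ p : H × ι, p ∈ A ↔ ((p.1 ∈ F₁ ∧ p.2 = o) ∨ (p.1 ∈ F₂ ∧ p.2 = j)) ∨
      (p.1 ∈ F₂ ∧ p.2 = k) := by
    intro p
    simp only [A, Finset.mem_union, Finset.mem_product, Finset.mem_singleton]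
  have key := card_translates K y D hD (fun i => i = o) (fun _ _ h h' => h.trans h'.symm)
    (fun _ h => h ▸ ho) (fun e he he' => hmin e he he') A V ?_ ?_
  · have hsum : ∑ p ∈ A, (Finset.univ.filter (fun c : H ⧸ K => (c, p.2) ∈ D)).card =
        F₁.card * nD K D o + F₂.card * nD K D j + F₂.card * nD K D k := by
      rw [Finset.sum_union, Finset.sum_union]
      · rw [Finset.sum_product, Finset.sum_product, Finset.sum_product]
        simp only [Finset.sum_singleton, Finset.sum_const, smul_eq_mul]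
        rfl
      · rw [Finset.disjoint_left]
        rintro ⟨a, b⟩ h1 h2
        simp only [Finset.mem_product, Finset.mem_singleton] at h1 h2
        exact hij (h1.2.symm.trans h2.2)
      · rw [Finset.disjoint_left]
        rintro ⟨a, b⟩ h1 h2
        simp only [Finset.mem_union, Finset.mem_product, Finset.mem_singleton] at h1 h2
        rcases h1 with h1 | h1
        · exact hik (h1.2.symm.trans h2.2)
        · exact hjk (h1.2.symm.trans h2.2)
    rw [hsum] at key
    have h4 : nD K D o = Fintype.card (H ⧸ K) := by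
      unfold nD
      rw [Finset.filter_true_of_mem (fun c _ => hoD c), Finset.card_univ]
    rw [h4] at key
    have h3 : Fintype.card (H ⧸ K) * (F₁.card + F₂.card) ≤
        F₁.card * Fintype.card (H ⧸ K) + F₂.card * nD K D j + F₂.card * nD K D k := by
      nlinarith [Nat.mul_le_mul_left F₂.card hs]
    exact Nat.le_of_mul_le_mul_left (h3.trans key) hpos
  · intro p hp
    rw [hAm] at hp
    rcases hp with (⟨h1, h2⟩ | ⟨h1, h2⟩) | ⟨h1, h2⟩
    · rw [h2]; exact ⟨(hmem1 _ h1).1, (hmem1 _ h1).2⟩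
    · rw [h2]; exact ⟨(hmem2 _ h1).1, (hmem2 _ h1).2.1⟩
    · rw [h2]; exact ⟨(hmem2 _ h1).1, (hmem2 _ h1).2.2⟩
  · intro p hp q hq h
    rw [hAm] at hp hq
    apply hinj _ _ _ _ h
    · tauto
    · tauto


theorem good3 (m N : ℕ) (hN : 5 ≤ N) (n : Fin N → ℕ) (hn : ∀ i, n i ≤ m)
    (hs : 100 * (N - 1) * m + 101 * m < 101 * ∑ i, n i) :
    ∃ i j k, i ≠ j ∧ i ≠ k ∧ j ≠ k ∧ 2 * m ≤ n i + n j + n k := by
  classical
  let B := Finset.univ.filter (fun i : Fin N => 3 * n i < 2 * m)
  let C := Finset.univ.filter (fun i : Fin N => ¬ 3 * n i < 2 * m)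
  have hBC : B.card + C.card = N := by
    have := Finset.card_filter_add_card_filter_not (s := (Finset.univ : Finset (Fin N)))
      (fun i : Fin N => 3 * n i < 2 * m)
    simpa [B, C] using this
  have h1 : 3 * ∑ i, n i ≤ 2 * m * B.card + 3 * m * C.card := by
    have e : ∑ i, n i = ∑ i ∈ B, n i + ∑ i ∈ C, n i :=
      (Finset.sum_filter_add_sum_filter_not _ _ _).symm
    rw [e, mul_add]
    have hb : 3 * ∑ i ∈ B, n i ≤ 2 * m * B.card := by
      rw [Finset.mul_sum, mul_comm, ← smul_eq_mul]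
      apply Finset.sum_le_card_nsmul
      intro i hi
      have := (Finset.mem_filter.1 hi).2
      omega
    have hc : 3 * ∑ i ∈ C, n i ≤ 3 * m * C.card := by
      rw [Finset.mul_sum, mul_comm (3 * m), ← smul_eq_mul]
      apply Finset.sum_le_card_nsmul
      intro i hi
      have := hn i
      omega
    omega
  have hC : 2 < C.card := by
    by_contra hcon
    have hc2 : C.card ≤ 2 := by omega
    obtain ⟨N', rfl⟩ : ∃ N', N = N' + 5 := ⟨N - 5, by omega⟩
    have hB : B.card = N' + 5 - C.card := by omega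
    have e1 : N' + 5 - 1 = N' + 4 := by omega
    rw [e1] at hs
    have h2 : m * C.card ≤ m * 2 := Nat.mul_le_mul_left _ hc2
    have h3 : m * B.card + m * C.card = m * (N' + 5) := by rw [← mul_add, hBC]
    nlinarith
  rw [Finset.two_lt_card] at hC
  obtain ⟨i, hi, j, hj, k, hk, hij, hik, hjk⟩ := hC
  refine ⟨i, j, k, hij, hik, hjk, ?_⟩
  have h1 := (Finset.mem_filter.1 hi).2
  have h2 := (Finset.mem_filter.1 hj).2
  have h3 := (Finset.mem_filter.1 hk).2
  omega

theorem good2 (m N : ℕ) (hN : 5 ≤ N) (n : Fin N → ℕ) (hn : ∀ i, n i ≤ m)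
    (hs : 100 * (N - 1) * m < 101 * ∑ i, n i) :
    ∃ j k, j ≠ k ∧ m ≤ n j + n k := by
  classical
  let B := Finset.univ.filter (fun i : Fin N => 2 * n i < m)
  let C := Finset.univ.filter (fun i : Fin N => ¬ 2 * n i < m)
  have hBC : B.card + C.card = N := by
    have := Finset.card_filter_add_card_filter_not (s := (Finset.univ : Finset (Fin N)))
      (fun i : Fin N => 2 * n i < m)
    simpa [B, C] using this
  have h1 : 2 * ∑ i, n i ≤ m * B.card + 2 * m * C.card := by
    have e : ∑ i, n i = ∑ i ∈ B, n i + ∑ i ∈ C, n i :=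
      (Finset.sum_filter_add_sum_filter_not _ _ _).symm
    rw [e, mul_add]
    have hb : 2 * ∑ i ∈ B, n i ≤ m * B.card := by
      rw [Finset.mul_sum, mul_comm m, ← smul_eq_mul]
      apply Finset.sum_le_card_nsmul
      intro i hi
      have := (Finset.mem_filter.1 hi).2
      omega
    have hc : 2 * ∑ i ∈ C, n i ≤ 2 * m * C.card := by
      rw [Finset.mul_sum, mul_comm (2 * m), ← smul_eq_mul]
      apply Finset.sum_le_card_nsmul
      intro i hi
      have := hn i
      omega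
    omega
  have hC : 1 < C.card := by
    by_contra hcon
    have hc2 : C.card ≤ 1 := by omega
    obtain ⟨N', rfl⟩ : ∃ N', N = N' + 5 := ⟨N - 5, by omega⟩
    have e1 : N' + 5 - 1 = N' + 4 := by omega
    rw [e1] at hs
    have h2 : m * C.card ≤ m * 1 := Nat.mul_le_mul_left _ hc2
    have h3 : m * B.card + m * C.card = m * (N' + 5) := by rw [← mul_add, hBC]
    nlinarith
  rw [Finset.one_lt_card] at hC
  obtain ⟨j, hj, k, hk, hjk⟩ := hC
  refine ⟨j, k, hjk, ?_⟩
  have h2 := (Finset.mem_filter.1 hj).2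
  have h3 := (Finset.mem_filter.1 hk).2
  omega

/-- `y` is an almost optimal generating system, in the sense of the rank gradient. -/
def Eff (N : ℕ) (H : Type*) [Group H] : Prop :=
  ∀ (K : Subgroup H), K.Normal → K.FiniteIndex → ∀ T : Finset H,
    Subgroup.closure (T : Set H) = K → 100 * (N - 1) * K.index + 101 < 101 * T.card

theorem inj_of_avoid (K : Subgroup H) [K.Normal] [DecidableEq H] (F : Finset H)
    (hK : ∀ x ∈ ((F ×ˢ F).image (fun p => p.1⁻¹ * p.2)).filter (fun x => x ≠ 1), x ∉ K)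
    (p q : H) (hp : p ∈ F) (hq : q ∈ F) (h : ((p : H) : H ⧸ K) = ((q : H) : H ⧸ K)) : p = q := by
  by_contra hne
  rw [QuotientGroup.eq] at h
  refine hK (p⁻¹ * q) ?_ h
  rw [Finset.mem_filter, Finset.mem_image]
  refine ⟨⟨(p, q), Finset.mem_product.2 ⟨hp, hq⟩, rfl⟩, ?_⟩
  intro hc
  exact hne (inv_mul_eq_one.1 hc)

theorem hall_of_eff [Group.ResiduallyFinite H] (N : ℕ) (hN : 5 ≤ N) (y : Fin N → H)
    (hy : Subgroup.closure (Set.range y) = ⊤) (heff : Eff N H) :
    ∃ i j k, ∀ F₁ F₂, HallC ![1, y i, y j] ![1, y j, y k] F₁ F₂ := by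
  classical
  by_contra hcon
  push Not at hcon
  choose F₁ F₂ hF using hcon
  let F : Finset H := Finset.univ.biUnion fun i => Finset.univ.biUnion fun j =>
    Finset.univ.biUnion fun k => F₁ i j k ∪ F₂ i j k
  have hFm : ∀ i j k x, x ∈ F₁ i j k ∨ x ∈ F₂ i j k → x ∈ F := by
    intro i j k x hx
    simp only [F, Finset.mem_biUnion, Finset.mem_univ, true_and, Finset.mem_union]
    exact ⟨i, j, k, hx⟩
  obtain ⟨K, hKn, hKf, hK⟩ := rf_avoid
    (((F ×ˢ F).image (fun p => p.1⁻¹ * p.2)).filter (fun x => x ≠ 1))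
    (fun x hx => (Finset.mem_filter.1 hx).2)
  have : Fintype (H ⧸ K) := Fintype.ofFinite _
  obtain ⟨D, _, hD, hmin⟩ := exists_min K y hy ∅
  obtain ⟨T, hT1, hT2⟩ := gen_count K y D hD
  have h1 := heff K hKn hKf T hT1
  have hidx : K.index = Fintype.card (H ⧸ K) := by
    rw [Subgroup.index_eq_card, Nat.card_eq_fintype_card]
  rw [hidx] at h1
  obtain ⟨i, j, k, hij, hik, hjk, hs⟩ := good3 (Fintype.card (H ⧸ K)) N hN (nD K D)
    (nD_le K D) (by rw [sum_nD]; omega)
  refine hF i j k (hall3 K y D hD (fun e he => hmin e he (Finset.notMem_empty _)) i j k hij hik hjk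
    hs _ _ ?_)
  intro p q hp hq h
  exact inj_of_avoid K F hK p q (hFm _ _ _ _ hp) (hFm _ _ _ _ hq) h

theorem hall_of_eff' [Group.ResiduallyFinite H] (N : ℕ) (hN : 5 ≤ N) (y : Fin N → H)
    (hy : Subgroup.closure (Set.range y) = ⊤) (heff : Eff N H) (g : H)
    (hg : ∀ n : ℕ, 0 < n → g ^ n ≠ 1) :
    ∃ j k, ∀ F₁ F₂, HallC ![1, g] ![1, y j, y k] F₁ F₂ := by
  classical
  by_contra hcon
  push Not at hcon
  choose F₁ F₂ hF using hcon
  let F : Finset H := Finset.univ.biUnion fun j =>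
    Finset.univ.biUnion fun k => F₁ j k ∪ F₂ j k
  have hFm : ∀ j k x, x ∈ F₁ j k ∨ x ∈ F₂ j k → x ∈ F := by
    intro j k x hx
    simp only [F, Finset.mem_biUnion, Finset.mem_univ, true_and, Finset.mem_union]
    exact ⟨j, k, hx⟩
  obtain ⟨K, hKn, hKf, hK⟩ := rf_avoid
    (((F ×ˢ F).image (fun p => p.1⁻¹ * p.2)).filter (fun x => x ≠ 1))
    (fun x hx => (Finset.mem_filter.1 hx).2)
  have : Fintype (H ⧸ K) := Fintype.ofFinite _
  let y' : Option (Fin N) → H := fun o => o.elim g y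
  have hy' : Subgroup.closure (Set.range y') = ⊤ := by
    rw [eq_top_iff, ← hy]
    apply Subgroup.closure_mono
    rintro _ ⟨i, rfl⟩
    exact ⟨some i, rfl⟩
  obtain ⟨D, hD0, hD, hmin⟩ := exists_min K y' hy' (Finset.univ ×ˢ {none})
  obtain ⟨T, hT1, hT2⟩ := gen_count K y' D hD
  have h1 := heff K hKn hKf T hT1
  have hidx : K.index = Fintype.card (H ⧸ K) := by
    rw [Subgroup.index_eq_card, Nat.card_eq_fintype_card]
  rw [hidx] at h1
  have hoD : ∀ c, (c, none) ∈ D := fun c => hD0 (by simp)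
  have hsum := sum_nD K D
  rw [Fintype.sum_option] at hsum
  have h4 : nD K D none = Fintype.card (H ⧸ K) := by
    unfold nD
    rw [Finset.filter_true_of_mem (fun c _ => hoD c), Finset.card_univ]
  obtain ⟨j, k, hjk, hs⟩ := good2 (Fintype.card (H ⧸ K)) N hN (fun i => nD K D (some i))
    (fun i => nD_le K D (some i)) (by omega)
  refine hF j k (hall2 K y' D hD none hg hoD ?_ (some j) (some k) (by simp) (by simp)
    (by simpa using hjk) hs _ _ ?_)
  · intro e he hne
    refine hmin e he ?_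
    intro hc
    rw [Finset.mem_product, Finset.mem_singleton] at hc
    exact hne hc.2
  · intro p q hp hq h
    exact inj_of_avoid K F hK p q (hFm _ _ _ hp) (hFm _ _ _ hq) h

end Pool.Agent.Lib.MP_354e85_al
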