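import Pool.Agent.Lib.MP_354e85_al.Iso

open MeasureTheory Set

namespace Pool.Agent.Lib.MP_354e85_al

/-- All essentially free measure preserving actions of `G` on `[0, 1]` have cost at least
`1 + ε`. -/
def CostGE (G : Type*) [Group G] (ε : ℝ) : Prop :=
  ∀ (a : G → ℝ → ℝ),
    (∀ x, a 1 x = x) →
    (∀ g h x, a (g * h) x = a g (a h x)) →
    (∀ g, MeasurePreserving (a g) (volume.restrict (Set.Icc (0:ℝ) 1))
      (volume.restrict (Set.Icc (0:ℝ) 1))) →
    (∀ g, g ≠ 1 → volume.restrict (Set.Icc (0:ℝ) 1) {x | a g x = x} = 0) →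
    ∀ (A : ℕ → Set ℝ) (φ : ℕ → ℝ → ℝ),
      (∀ i, MeasurableSet (A i)) →
      (∀ i, Measurable (φ i)) →
      (∀ i, Set.InjOn (φ i) (A i)) →
      (∀ i x, x ∈ A i → ∃ g, φ i x = a g x) →
      (∀ᵐ x ∂(volume.restrict (Set.Icc (0:ℝ) 1)), ∀ g,
        Relation.ReflTransGen
          (fun y z => ∃ i, (y ∈ A i ∧ φ i y = z) ∨ (z ∈ A i ∧ φ i z = y)) x (a g x)) →
      ENNReal.ofReal (1 + ε) ≤ ∑' i, volume.restrict (Set.Icc (0:ℝ) 1) (A i)

theorem cost_transport {G : Type*} [Group G] [Countable G] {ε : ℝ} (hcost : CostGE G ε)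
    {X : Type*} [MeasurableSpace X] [StandardBorelSpace X] (μ : Measure X)
    [IsProbabilityMeasure μ] [NullSingletonClass μ] (act : G → X → X) (h1 : ∀ x, act 1 x = x)
    (hmul : ∀ g h x, act (g * h) x = act g (act h x))
    (hmp : ∀ g, MeasurePreserving (act g) μ μ)
    (hfree : ∀ g, g ≠ 1 → μ {x | act g x = x} = 0) (n : ℕ) (s : Fin n → G) (B : Fin n → Set X)
    (hB : ∀ i, MeasurableSet (B i))
    (hconn : ∀ x g, Relation.ReflTransGen
      (fun y z => ∃ i, (y ∈ B i ∧ act (s i) y = z) ∨ (z ∈ B i ∧ act (s i) z = y)) x (act g x)) :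
    ENNReal.ofReal (1 + ε) ≤ ∑ i, μ (B i) := by
  classical
  obtain ⟨Φ, hΦ, hmap, Z, hZm, hZ0, hZinj⟩ := exists_iso μ
  set lam := volume.restrict (Icc (0 : ℝ) 1) with hlam
  let X0 : Set X := {x | ∀ g, act g x ∈ Z}
  have hX0eq : X0 = ⋂ g, (act g) ⁻¹' Z := by
    ext x; simp [X0]
  have hX0m : MeasurableSet X0 := by
    rw [hX0eq]
    exact MeasurableSet.iInter fun g => (hmp g).measurable hZm
  have hX0c : μ X0ᶜ = 0 := by
    rw [hX0eq, compl_iInter, measure_iUnion_null_iff]
    intro g
    rw [← preimage_compl, (hmp g).measure_preimage hZm.compl.nullMeasurableSet]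
    exact hZ0
  have hinv : ∀ x ∈ X0, ∀ g, act g x ∈ X0 := by
    intro x hx g h
    rw [← hmul]
    exact hx (h * g)
  have hX0Z : ∀ x ∈ X0, x ∈ Z := by
    intro x hx
    have := hx 1
    rwa [h1] at this
  have : StandardBorelSpace X0 := hX0m.standardBorel
  let f : X0 → ℝ := fun x => Φ x
  have hf : MeasurableEmbedding f :=
    (hΦ.comp measurable_subtype_coe).measurableEmbedding (by
      intro x y hxy
      exact Subtype.ext (hZinj (hX0Z _ x.2) (hX0Z _ y.2) hxy))
  let act0 : G → X0 → X0 := fun g x => ⟨act g x, hinv x x.2 g⟩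
  have hact0 : ∀ g, Measurable (act0 g) := fun g =>
    ((hmp g).measurable.comp measurable_subtype_coe).subtype_mk
  let a : G → ℝ → ℝ := fun g => Function.extend f (fun x => f (act0 g x)) id
  have haf : ∀ g x, a g (f x) = f (act0 g x) := fun g x => hf.injective.extend_apply _ _ _
  have han : ∀ g x, x ∉ range f → a g x = x := fun g x hx =>
    Function.extend_apply' _ _ _ (fun ⟨y, hy⟩ => hx ⟨y, hy⟩)
  have ham : ∀ g, Measurable (a g) := fun g =>
    hf.measurable_extend (hf.measurable.comp (hact0 g)) measurable_id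
  have hae : ∀ᵐ x ∂μ, x ∈ X0 := by
    rw [ae_iff]; exact hX0c
  have ha1 : ∀ x, a 1 x = x := by
    intro x
    by_cases hx : x ∈ range f
    · obtain ⟨y, rfl⟩ := hx
      rw [haf]
      congr 1
      exact Subtype.ext (h1 _)
    · exact han _ _ hx
  have hamul : ∀ g h x, a (g * h) x = a g (a h x) := by
    intro g h x
    by_cases hx : x ∈ range f
    · obtain ⟨y, rfl⟩ := hx
      rw [haf, haf, haf]
      congr 1
      exact Subtype.ext (hmul _ _ _)
    · rw [han _ _ hx, han _ _ hx, han _ _ hx]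
  have hamp : ∀ g, MeasurePreserving (a g) lam lam := by
    intro g
    refine ⟨ham g, ?_⟩
    rw [← hmap, Measure.map_map (ham g) hΦ]
    have : (a g ∘ Φ) =ᵐ[μ] (Φ ∘ act g) := by
      filter_upwards [hae] with x hx
      exact haf g ⟨x, hx⟩
    rw [Measure.map_congr this, ← Measure.map_map hΦ (hmp g).measurable, (hmp g).map_eq]
  have hafree : ∀ g, g ≠ 1 → lam {x | a g x = x} = 0 := by
    intro g hg
    have hms : MeasurableSet {x | a g x = x} := measurableSet_eq_fun (ham g) measurable_id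
    rw [← hmap, Measure.map_apply hΦ hms]
    have hsub : Φ ⁻¹' {x | a g x = x} ⊆ {x | act g x = x} ∪ X0ᶜ := by
      intro x hx
      by_cases hx0 : x ∈ X0
      · left
        have hx' : a g (f ⟨x, hx0⟩) = f ⟨x, hx0⟩ := hx
        rw [haf] at hx'
        exact congrArg Subtype.val (hf.injective hx')
      · right; exact hx0
    apply measure_mono_null hsub
    rw [measure_union_null_iff]
    exact ⟨hfree g hg, hX0c⟩
  let A : ℕ → Set ℝ := fun i => if h : i < n then f '' (Subtype.val ⁻¹' B ⟨i, h⟩) else ∅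
  let φ : ℕ → ℝ → ℝ := fun i => if h : i < n then a (s ⟨i, h⟩) else id
  have hAm : ∀ i, MeasurableSet (A i) := by
    intro i
    by_cases h : i < n
    · simp only [A, h, dite_true]
      exact hf.measurableSet_image.2 (measurable_subtype_coe (hB _))
    · simp only [A, h, dite_false]
      exact MeasurableSet.empty
  have hAmeas : ∀ (i : ℕ) (h : i < n), lam (A i) = μ (B ⟨i, h⟩) := by
    intro i h
    rw [← hmap, Measure.map_apply hΦ (hAm i)]
    apply measure_congr
    filter_upwards [hae] with x hx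
    apply propext
    simp only [A, h, dite_true]
    constructor
    · rintro ⟨y, hy, hyx⟩
      have : y = ⟨x, hx⟩ := hf.injective hyx
      rw [this] at hy
      exact hy
    · intro hxB
      exact ⟨⟨x, hx⟩, hxB, rfl⟩
  have key := hcost a ha1 hamul hamp hafree A φ hAm ?_ ?_ ?_ ?_
  · refine key.trans (le_of_eq ?_)
    rw [tsum_eq_sum (s := Finset.range n)]
    · rw [Finset.sum_range]
      exact Finset.sum_congr rfl fun i _ => hAmeas i i.2
    · intro i hi
      rw [Finset.mem_range] at hi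
      simp only [A, hi, dite_false, measure_empty]
  · intro i
    by_cases h : i < n
    · simp only [φ, h, dite_true]
      exact ham _
    · simp only [φ, h, dite_false]
      exact measurable_id
  · intro i x _ z _ hxz
    by_cases h : i < n
    · simp only [φ, h, dite_true] at hxz
      have h2 := congrArg (a (s ⟨i, h⟩)⁻¹) hxz
      rwa [← hamul, ← hamul, inv_mul_cancel, ha1, ha1] at h2
    · simp only [φ, h, dite_false] at hxz
      exact hxz
  · intro i x _
    by_cases h : i < n
    · exact ⟨s ⟨i, h⟩, by simp only [φ, h, dite_true]⟩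
    · exact ⟨1, by simp only [φ, h, dite_false, ha1, id]⟩
  · have hrange : ∀ᵐ x ∂lam, x ∈ range f := by
      rw [ae_iff]
      have hset : {x | x ∉ range f} = (range f)ᶜ := rfl
      rw [hset, ← hmap, Measure.map_apply hΦ hf.measurableSet_range.compl]
      apply measure_mono_null _ hX0c
      intro x hx hx0
      exact hx ⟨⟨x, hx0⟩, rfl⟩
    change ∀ᵐ x ∂lam, _
    filter_upwards [hrange] with x' hx'
    obtain ⟨⟨x, hx⟩, rfl⟩ := hx'
    intro g
    have hpath : ∀ z, Relation.ReflTransGen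
        (fun y z => ∃ i, (y ∈ B i ∧ act (s i) y = z) ∨ (z ∈ B i ∧ act (s i) z = y)) x z →
        ∃ hz : z ∈ X0, Relation.ReflTransGen
          (fun y z => ∃ i, (y ∈ A i ∧ φ i y = z) ∨ (z ∈ A i ∧ φ i z = y)) (Φ x) (f ⟨z, hz⟩) := by
      intro z hz
      induction hz with
      | refl => exact ⟨hx, Relation.ReflTransGen.refl⟩
      | @tail b c _ hbc ih =>
        obtain ⟨hb, ih⟩ := ih
        obtain ⟨i, hi⟩ := hbc
        rcases hi with ⟨hbB, hbc⟩ | ⟨hcB, hcb⟩
        · subst hbc
          refine ⟨hinv _ hb _, ih.tail ⟨i, Or.inl ⟨?_, ?_⟩⟩⟩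
          · simp only [A, i.2, dite_true]
            exact ⟨⟨b, hb⟩, hbB, rfl⟩
          · simp only [φ, i.2, dite_true]
            exact haf _ _
        · subst hcb
          have hc : c ∈ X0 := by
            have := hinv _ hb (s i)⁻¹
            rwa [← hmul, inv_mul_cancel, h1] at this
          refine ⟨hc, ih.tail ⟨i, Or.inr ⟨?_, ?_⟩⟩⟩
          · simp only [A, i.2, dite_true]
            exact ⟨⟨c, hc⟩, hcB, rfl⟩
          · simp only [φ, i.2, dite_true]
            exact haf _ _
    obtain ⟨hz, hp⟩ := hpath _ (hconn x g)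
    have : a g (Φ x) = f ⟨act g x, hz⟩ := haf g ⟨x, hx⟩
    rw [this]
    exact hp

end Pool.Agent.Lib.MP_354e85_al
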