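import Pool.Agent.Lib.MP_354e85_al.Tarski

namespace Pool.Agent.Lib.MP_354e85_al

theorem fam_of_finset {H : Type*} [Group H] (T : Finset H) (n : ℕ) (h : T.card ≤ n) :
    ∃ y : Fin n → H, Subgroup.closure (Set.range y) = Subgroup.closure (T : Set H) := by
  classical
  let y : Fin n → H := fun i => if hi : (i : ℕ) < T.card then (T.equivFin.symm ⟨i, hi⟩ : H) else 1
  refine ⟨y, le_antisymm ?_ ?_⟩
  · rw [Subgroup.closure_le]
    rintro _ ⟨i, rfl⟩
    by_cases hi : (i : ℕ) < T.card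
    · simp only [y, hi, dite_true]
      exact Subgroup.subset_closure (Finset.mem_coe.2 (T.equivFin.symm ⟨i, hi⟩).2)
    · simp only [y, hi, dite_false]
      exact one_mem _
  · apply Subgroup.closure_mono
    intro x hx
    refine ⟨⟨T.equivFin ⟨x, hx⟩, lt_of_lt_of_le (T.equivFin ⟨x, hx⟩).2 h⟩, ?_⟩
    simp [y]

theorem fam_lift {G : Type*} [Group G] (H : Subgroup G) (n : ℕ) (y : Fin n → G)
    (hy : Subgroup.closure (Set.range y) = H) :
    ∃ z : Fin n → H, Subgroup.closure (Set.range z) = ⊤ := by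
  have hz : ∀ i, y i ∈ H := fun i => by
    rw [← hy]; exact Subgroup.subset_closure ⟨i, rfl⟩
  refine ⟨fun i => ⟨y i, hz i⟩, ?_⟩
  apply Subgroup.map_injective H.subtype_injective
  rw [MonoidHom.map_closure, ← Set.range_comp]
  have : (⇑H.subtype ∘ fun i => (⟨y i, hz i⟩ : H)) = y := rfl
  rw [this, hy, ← MonoidHom.range_eq_map, Subgroup.range_subtype]

structure NearMin {G : Type*} [Group G] (H : Subgroup G) (n : ℕ) : Prop where
  fin : H.FiniteIndex
  gen : ∃ y : Fin n → G, Subgroup.closure (Set.range y) = H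
  min : ∀ K : Subgroup G, K.FiniteIndex → ∀ T : Finset G, Subgroup.closure (T : Set G) = K →
    100 * ((n : ℤ) - 1) * K.index < 101 * ((T.card : ℤ) - 1) * H.index

theorem map_data {G : Type*} [Group G] (H : Subgroup G) (K : Subgroup H) (T : Finset H)
    (hT : Subgroup.closure (T : Set H) = K) :
    ∃ T' : Finset G, T'.card = T.card ∧
      Subgroup.closure (T' : Set G) = K.map H.subtype := by
  classical
  refine ⟨T.image H.subtype, Finset.card_image_of_injective _ H.subtype_injective, ?_⟩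
  rw [Finset.coe_image, ← MonoidHom.map_closure, hT]

theorem NearMin.step {G : Type*} [Group G] [Group.ResiduallyFinite G] {H : Subgroup G} {n : ℕ}
    (h : NearMin H n) (hn : 2 ≤ n) :
    ∃ (H' : Subgroup G) (n' : ℕ), NearMin H' n' ∧ 2 * n ≤ n' + 1 := by
  classical
  obtain ⟨y, hy⟩ := h.gen
  obtain ⟨z, hz⟩ := fam_lift H n y hy
  have hHf := h.fin
  -- H is nontrivial
  have hnt : ∃ x : H, x ≠ 1 := by
    by_contra hcon
    push Not at hcon
    have hbot : H = ⊥ := by
      rw [Subgroup.eq_bot_iff_forall]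
      intro x hx
      have := hcon ⟨x, hx⟩
      exact congrArg Subtype.val this
    have := h.min H h.fin ∅ (by simp [hbot])
    have h2 : (0 : ℤ) ≤ H.index := by positivity
    have h3 : (2 : ℤ) ≤ n := by exact_mod_cast hn
    simp only [Finset.card_empty, Nat.cast_zero, zero_sub] at this
    have h5 : (0 : ℤ) ≤ ((n : ℤ) - 1) * H.index := mul_nonneg (by linarith) h2
    nlinarith
  obtain ⟨x, hx⟩ := hnt
  obtain ⟨K, hKn, hKf, hK⟩ := rf_avoid ({x} : Finset H) (by simpa using hx)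
  have hxK : x ∉ K := hK x (Finset.mem_singleton_self _)
  have hk2 : 2 ≤ K.index := by
    have h1 : K.index ≠ 0 := hKf.index_ne_zero
    have h2 : K.index ≠ 1 := by
      rw [Ne, Subgroup.index_eq_one]
      rintro rfl
      exact hxK trivial
    omega
  have : Fintype (H ⧸ K) := Fintype.ofFinite _
  have hidx : K.index = Fintype.card (H ⧸ K) := by
    rw [Subgroup.index_eq_card, Nat.card_eq_fintype_card]
  obtain ⟨T, hT1, hT2⟩ := gen_count K z Finset.univ (by
    rw [Finset.coe_univ]; exact conn_univ K z hz)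
  obtain ⟨T', hT'1, hT'2⟩ := map_data H K T hT1
  have hcard : T'.card ≤ (n - 1) * K.index + 1 := by
    rw [hT'1]
    have : (Finset.univ : Finset ((H ⧸ K) × Fin n)).card = K.index * n := by
      rw [Finset.card_univ, Fintype.card_prod, Fintype.card_fin, hidx]
    rw [this, ← hidx] at hT2
    obtain ⟨n', rfl⟩ : ∃ n', n = n' + 1 := ⟨n - 1, by omega⟩
    simp only [Nat.add_sub_cancel]
    nlinarith
  obtain ⟨w, hw⟩ := fam_of_finset T' _ hcard
  have hindex : (K.map H.subtype).index = K.index * H.index := by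
    rw [Subgroup.index_map_subtype]
  refine ⟨K.map H.subtype, (n - 1) * K.index + 1, ⟨⟨?_⟩, ⟨w, hw.trans hT'2⟩, ?_⟩, ?_⟩
  · rw [hindex]
    exact mul_ne_zero hKf.index_ne_zero h.fin.index_ne_zero
  · intro L hL S hS
    have h1 := h.min L hL S hS
    rw [hindex]
    obtain ⟨n', rfl⟩ : ∃ n', n = n' + 1 := ⟨n - 1, by omega⟩
    simp only [Nat.add_sub_cancel]
    push_cast at h1 ⊢
    have h2 : (0 : ℤ) < K.index := by omega
    have h3 := mul_lt_mul_of_pos_left h1 h2
    nlinarith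
  · obtain ⟨n', rfl⟩ : ∃ n', n = n' + 1 := ⟨n - 1, by omega⟩
    simp only [Nat.add_sub_cancel]
    nlinarith

theorem NearMin.eff {G : Type*} [Group G] {H : Subgroup G} {n : ℕ}
    (h : NearMin H n) (hn : 2 ≤ n) : Eff n H := by
  intro K hKn hKf T hT
  obtain ⟨T', hT'1, hT'2⟩ := map_data H K T hT
  have hindex : (K.map H.subtype).index = K.index * H.index := by
    rw [Subgroup.index_map_subtype]
  have h1 := h.min (K.map H.subtype) ⟨by
    rw [hindex]
    exact mul_ne_zero hKf.index_ne_zero h.fin.index_ne_zero⟩ T' hT'2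
  rw [hindex, hT'1] at h1
  obtain ⟨n', rfl⟩ : ∃ n', n = n' + 1 := ⟨n - 1, by omega⟩
  simp only [Nat.add_sub_cancel]
  have h2 : (0 : ℤ) < H.index := by
    have := h.fin.index_ne_zero
    omega
  push_cast at h1
  have h3 : (100 * (n' : ℤ) * K.index) * H.index < (101 * ((T.card : ℤ) - 1)) * H.index := by
    nlinarith
  have h4 := lt_of_mul_lt_mul_right h3 h2.le
  zify
  linarith

/-- Positive rank gradient. -/
def RGPos (G : Type*) [Group G] : Prop :=
  ∃ δ : ℝ, 0 < δ ∧ ∀ K : Subgroup G, K.FiniteIndex → ∀ T : Finset G,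
    Subgroup.closure (T : Set G) = K → 1 + δ * K.index ≤ T.card

theorem exists_nearMin {G : Type*} [Group G] (hfg : Group.FG G) (h : RGPos G) :
    ∃ (H : Subgroup G) (n : ℕ), NearMin H n ∧ 2 ≤ n := by
  classical
  obtain ⟨δ, hδ, hrg⟩ := h
  let S : Set ℝ := {r | ∃ (K : Subgroup G) (T : Finset G), K.FiniteIndex ∧
    Subgroup.closure (T : Set G) = K ∧ r = ((T.card : ℝ) - 1) / K.index}
  have hpos : ∀ K : Subgroup G, K.FiniteIndex → (0 : ℝ) < K.index := by
    intro K hK
    have := hK.index_ne_zero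
    positivity
  have hlow : ∀ r ∈ S, δ ≤ r := by
    rintro r ⟨K, T, hK, hT, rfl⟩
    rw [le_div_iff₀ (hpos K hK)]
    have := hrg K hK T hT
    linarith
  have hne : S.Nonempty := by
    obtain ⟨T, hT⟩ := Group.fg_iff'.1 hfg
    obtain ⟨T, hT1, hT2⟩ := hT
    exact ⟨_, ⊤, T, inferInstance, hT2, rfl⟩
  have hbdd : BddBelow S := ⟨δ, hlow⟩
  have hr : δ ≤ sInf S := le_csInf hne hlow
  have hr2 : sInf S < 101 / 100 * sInf S := by linarith
  obtain ⟨r, hrS, hrlt⟩ := exists_lt_of_csInf_lt hne hr2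
  obtain ⟨H, T, hH, hT, rfl⟩ := hrS
  obtain ⟨y, hy⟩ := fam_of_finset T T.card le_rfl
  refine ⟨H, T.card, ⟨hH, ⟨y, hy.trans hT⟩, ?_⟩, ?_⟩
  · intro K hK T' hT'
    have h1 : sInf S ≤ ((T'.card : ℝ) - 1) / K.index := csInf_le hbdd ⟨K, T', hK, hT', rfl⟩
    have h2 : ((T.card : ℝ) - 1) / H.index < 101 / 100 * (((T'.card : ℝ) - 1) / K.index) := by
      linarith
    have hp1 := hpos H hH
    have hp2 := hpos K hK
    rw [div_lt_iff₀ hp1, ← mul_div_assoc, div_mul_eq_mul_div, lt_div_iff₀ hp2] at h2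
    have h3 : (100 * ((T.card : ℝ) - 1) * K.index) < 101 * ((T'.card : ℝ) - 1) * H.index := by
      linarith
    exact_mod_cast h3
  · have h1 := hrg H hH T hT
    have hp1 := hpos H hH
    have : (1 : ℝ) < T.card := by
      have : 0 < δ * H.index := by positivity
      linarith
    exact_mod_cast this

theorem tarski_of_rg {G : Type*} [Group G] [Group.ResiduallyFinite G] (hfg : Group.FG G)
    (h : RGPos G) :
    TarskiLE G 6 ∧ ((∃ g : G, ∀ n : ℕ, 0 < n → g ^ n ≠ 1) → TarskiLE G 5) := by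
  classical
  obtain ⟨H0, n0, h0, hn0⟩ := exists_nearMin hfg h
  obtain ⟨H1, n1, h1, hn1⟩ := h0.step hn0
  obtain ⟨H, n, hH, hn⟩ := h1.step (by omega)
  have hn5 : 5 ≤ n := by omega
  have heff := hH.eff (by omega)
  obtain ⟨y, hy⟩ := hH.gen
  obtain ⟨z, hz⟩ := fam_lift H n y hy
  constructor
  · obtain ⟨i, j, k, hall⟩ := hall_of_eff n hn5 z hz heff
    exact tarski_of_hall H ![1, z i, z j] ![1, z j, z k] 0 (by simp) hall
  · rintro ⟨g, hg⟩
    obtain ⟨m, hm0, hm, hmem⟩ := Subgroup.exists_pow_mem_of_index_ne_zero hH.fin.index_ne_zero g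
    obtain ⟨j, k, hall⟩ := hall_of_eff' n hn5 z hz heff (⟨g ^ m, hmem⟩ : H) (by
      intro l hl hc
      apply hg (m * l) (by positivity)
      rw [pow_mul]
      exact congrArg Subtype.val hc)
    exact tarski_of_hall H ![1, (⟨g ^ m, hmem⟩ : H)] ![1, z j, z k] 0 (by simp) hall

end Pool.Agent.Lib.MP_354e85_al
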