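import Mathlib

open MeasureTheory ProbabilityTheory Set

namespace Pool.Agent.Lib.MP_354e85_al

theorem cdf_cont (ρ : Measure ℝ) [IsProbabilityMeasure ρ] [NullSingletonClass ρ] : Continuous (cdf ρ) := by
  rw [continuous_iff_continuousAt]
  intro x
  rw [(monotone_cdf ρ).continuousAt_iff_leftLim_eq_rightLim, (cdf ρ).rightLim_eq]
  have h1 : (cdf ρ).measure {x} = 0 := by rw [measure_cdf]; exact measure_singleton x
  rw [StieltjesFunction.measure_singleton, ENNReal.ofReal_eq_zero] at h1
  have h2 := (monotone_cdf ρ).leftLim_le (le_refl x)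
  linarith

theorem cdf_map (ρ : Measure ℝ) [IsProbabilityMeasure ρ] [NullSingletonClass ρ] :
    ρ.map (cdf ρ) = volume.restrict (Icc (0 : ℝ) 1) := by
  have hc := cdf_cont ρ
  have hm := (monotone_cdf ρ).measurable
  have : IsProbabilityMeasure (ρ.map (cdf ρ)) := Measure.isProbabilityMeasure_map hm.aemeasurable
  have : IsProbabilityMeasure (volume.restrict (Icc (0 : ℝ) 1)) := ⟨by simp⟩
  apply Measure.ext_of_Iic
  intro a
  rw [Measure.map_apply hm measurableSet_Iic, Measure.restrict_apply measurableSet_Iic]
  rcases lt_or_ge a 0 with ha | ha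
  · have e1 : (cdf ρ) ⁻¹' Iic a = ∅ := by
      ext x
      simp only [mem_preimage, mem_Iic, mem_empty_iff_false, iff_false, not_le]
      exact lt_of_lt_of_le ha (cdf_nonneg ρ x)
    have e2 : Iic a ∩ Icc (0 : ℝ) 1 = ∅ := by
      ext x
      simp only [mem_inter_iff, mem_Iic, mem_Icc, mem_empty_iff_false, iff_false]
      rintro ⟨h1, h2, _⟩
      linarith
    rw [e1, e2]
    simp
  rcases lt_or_ge a 1 with ha1 | ha1
  · have e2 : Iic a ∩ Icc (0 : ℝ) 1 = Icc 0 a := by
      ext x
      simp only [mem_inter_iff, mem_Iic, mem_Icc]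
      constructor
      · rintro ⟨h1, h2, _⟩; exact ⟨h2, h1⟩
      · rintro ⟨h1, h2⟩; exact ⟨h2, h1, by linarith⟩
    rw [e2, Real.volume_Icc, sub_zero]
    -- the set {F ≤ a}
    set S := (cdf ρ) ⁻¹' Iic a with hS
    have hlower : ∀ x ∈ S, ∀ z ≤ x, z ∈ S := fun x hx z hz =>
      ((monotone_cdf ρ) hz).trans hx
    have hclosed : IsClosed S := isClosed_Iic.preimage hc
    obtain ⟨M, hM⟩ : ∃ M, a < cdf ρ M :=
      ((tendsto_cdf_atTop ρ).eventually (lt_mem_nhds ha1)).exists
    have hbdd : BddAbove S := ⟨M, fun x hx => by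
      by_contra hcon
      push Not at hcon
      have := (monotone_cdf ρ) hcon.le
      have hx' : cdf ρ x ≤ a := hx
      linarith⟩
    by_cases hne : S.Nonempty
    · have hmem : sSup S ∈ S := hclosed.csSup_mem hne hbdd
      have hSeq : S = Iic (sSup S) := by
        ext x
        constructor
        · intro hx; exact le_csSup hbdd hx
        · intro hx; exact hlower _ hmem _ hx
      have hval : cdf ρ (sSup S) = a := by
        apply le_antisymm hmem
        by_contra hcon
        push Not at hcon
        have hnh : ∀ᶠ x in nhds (sSup S), cdf ρ x < a :=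
          (hc.tendsto (sSup S)).eventually (gt_mem_nhds hcon)
        obtain ⟨x, hx1, hx2⟩ := ((hnh.filter_mono nhdsWithin_le_nhds).and
          (self_mem_nhdsWithin : Ioi (sSup S) ∈ nhdsWithin (sSup S) (Ioi (sSup S)))).exists
        have : x ≤ sSup S := le_csSup hbdd hx1.le
        exact absurd hx2 (not_lt.2 this)
      rw [hSeq, ← ofReal_cdf, hval]
    · rw [not_nonempty_iff_eq_empty] at hne
      rw [hne, measure_empty]
      -- then a = 0
      have : a ≤ 0 := by
        by_contra hcon
        push Not at hcon
        obtain ⟨x, hx⟩ : ∃ x, cdf ρ x < a :=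
          ((tendsto_cdf_atBot ρ).eventually (gt_mem_nhds hcon)).exists
        have : x ∈ S := hx.le
        rw [hne] at this
        exact this
      have : a = 0 := le_antisymm this ha
      simp [this]
  · have e1 : (cdf ρ) ⁻¹' Iic a = univ := by
      ext x
      simp only [mem_preimage, mem_Iic, mem_univ, iff_true]
      exact (cdf_le_one ρ x).trans ha1
    have e2 : Iic a ∩ Icc (0 : ℝ) 1 = Icc 0 1 := by
      ext x
      simp only [mem_inter_iff, mem_Iic, mem_Icc]
      constructor
      · rintro ⟨_, h2⟩; exact h2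
      · rintro ⟨h1, h2⟩; exact ⟨by linarith, h1, h2⟩
    rw [e1, e2, measure_univ, Real.volume_Icc]
    simp

theorem exists_iso {X : Type*} [MeasurableSpace X] [StandardBorelSpace X] (μ : Measure X)
    [IsProbabilityMeasure μ] [NullSingletonClass μ] :
    ∃ Φ : X → ℝ, Measurable Φ ∧ μ.map Φ = volume.restrict (Icc (0 : ℝ) 1) ∧
      ∃ Z : Set X, MeasurableSet Z ∧ μ Zᶜ = 0 ∧ InjOn Φ Z := by
  have he := measurableEmbedding_embeddingReal X
  set e := embeddingReal X with hedef
  have hρ : IsProbabilityMeasure (μ.map e) :=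
    Measure.isProbabilityMeasure_map he.measurable.aemeasurable
  have hna : NullSingletonClass (μ.map e) := by
    constructor
    intro x
    rw [Measure.map_apply he.measurable (measurableSet_singleton x)]
    have : (e ⁻¹' {x}).Subsingleton := by
      intro a ha b hb
      exact he.injective (ha.trans hb.symm)
    exact this.measure_zero μ
  have hm := (monotone_cdf (μ.map e)).measurable
  have hmap := cdf_map (μ.map e)
  refine ⟨cdf (μ.map e) ∘ e, hm.comp he.measurable, ?_, ?_⟩
  · rw [← Measure.map_map hm he.measurable, hmap]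
  · let Z : Set X := ⋂ q : ℚ, {x | cdf (μ.map e) (e x) ≠ cdf (μ.map e) q}
    have hZm : MeasurableSet Z := by
      apply MeasurableSet.iInter
      intro q
      exact (measurableSet_eq_fun (hm.comp he.measurable) measurable_const).compl
    refine ⟨Z, hZm, ?_, ?_⟩
    · have : Zᶜ = ⋃ q : ℚ, {x | cdf (μ.map e) (e x) = cdf (μ.map e) q} := by
        simp only [Z, compl_iInter]
        congr 1
        ext q x
        simp
      rw [this, measure_iUnion_null_iff]
      intro q
      have h1 : μ.map (cdf (μ.map e) ∘ e) {cdf (μ.map e) q} = 0 := by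
        rw [← Measure.map_map hm he.measurable, hmap]
        simp
      rw [Measure.map_apply (hm.comp he.measurable) (measurableSet_singleton _)] at h1
      exact h1
    · have key : ∀ a b : X, a ∈ Z → e a < e b →
          cdf (μ.map e) (e a) = cdf (μ.map e) (e b) → False := by
        intro a b ha hab hF
        obtain ⟨q, hq1, hq2⟩ := exists_rat_btwn hab
        have h1 := (monotone_cdf (μ.map e)) hq1.le
        have h2 := (monotone_cdf (μ.map e)) hq2.le
        have h3 : cdf (μ.map e) (e a) = cdf (μ.map e) q := le_antisymm h1 (hF ▸ h2)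
        exact (mem_iInter.1 ha q) h3
      intro a ha b hb hab
      rcases lt_trichotomy (e a) (e b) with h | h | h
      · exact (key a b ha h hab).elim
      · exact he.injective h
      · exact (key b a hb h hab.symm).elim

end Pool.Agent.Lib.MP_354e85_al
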