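import Pool.Agent.Lib.MP_354e85_al.Comb

namespace Pool.Agent.Lib.MP_354e85_al

/-- `G` has a paradoxical decomposition (by left translations) with at most `k` pieces. -/
def TarskiLE (G : Type*) [Group G] (k : ℕ) : Prop :=
  ∃ m n : ℕ, m + n ≤ k ∧
    ∃ (A : Fin m → Set G) (B : Fin n → Set G) (g : Fin m → G) (h : Fin n → G),
      (∀ x : G, ∃! p : Fin m ⊕ Fin n, x ∈ Sum.elim A B p) ∧
      (∀ x : G, ∃! i : Fin m, (g i)⁻¹ * x ∈ A i) ∧
      (∀ x : G, ∃! j : Fin n, (h j)⁻¹ * x ∈ B j)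

theorem hall_inj {H : Type*} [Group H] {m n : ℕ} (s₁ : Fin m → H) (s₂ : Fin n → H)
    (h : ∀ F₁ F₂, HallC s₁ s₂ F₁ F₂) :
    ∃ f : H ⊕ H → H, Function.Injective f ∧ (∀ v, ∃ i, v * s₁ i = f (Sum.inl v)) ∧
      (∀ v, ∃ i, v * s₂ i = f (Sum.inr v)) := by
  classical
  let t : H ⊕ H → Finset H := fun p => Sum.elim (fun v => nb s₁ {v}) (fun v => nb s₂ {v}) p
  obtain ⟨f, hf1, hf2⟩ := (Finset.all_card_le_biUnion_card_iff_exists_injective t).1 (by
    intro s
    obtain ⟨V, hV, hc⟩ := h s.toLeft s.toRight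
    have h1 : s.card = s.toLeft.card + s.toRight.card := by
      rw [Finset.card_toLeft_add_card_toRight]
    rw [h1]
    refine hc.trans (Finset.card_le_card ?_)
    intro x hx
    rw [hV, mem_nb, mem_nb] at hx
    rw [Finset.mem_biUnion]
    rcases hx with ⟨v, hv, i, hi⟩ | ⟨v, hv, i, hi⟩
    · refine ⟨Sum.inl v, by simpa using hv, ?_⟩
      change x ∈ nb s₁ {v}
      rw [mem_nb]
      exact ⟨v, by simp, i, hi⟩
    · refine ⟨Sum.inr v, by simpa using hv, ?_⟩
      change x ∈ nb s₂ {v}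
      rw [mem_nb]
      exact ⟨v, by simp, i, hi⟩)
  refine ⟨f, hf1, ?_, ?_⟩
  · intro v
    have := hf2 (Sum.inl v)
    change f (Sum.inl v) ∈ nb s₁ {v} at this
    rw [mem_nb] at this
    obtain ⟨w, hw, i, hi⟩ := this
    rw [Finset.mem_singleton] at hw
    exact ⟨i, hw ▸ hi⟩
  · intro v
    have := hf2 (Sum.inr v)
    change f (Sum.inr v) ∈ nb s₂ {v} at this
    rw [mem_nb] at this
    obtain ⟨w, hw, i, hi⟩ := this
    rw [Finset.mem_singleton] at hw
    exact ⟨i, hw ▸ hi⟩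

theorem tarski_of_hall {G : Type*} [Group G] (H : Subgroup G) {m n : ℕ} (s₁ : Fin m → H)
    (s₂ : Fin n → H) (j0 : Fin n) (hj0 : s₂ j0 = 1)
    (h : ∀ F₁ F₂, HallC s₁ s₂ F₁ F₂) : TarskiLE G (m + n) := by
  classical
  obtain ⟨f, hf, hf1, hf2⟩ := hall_inj s₁ s₂ h
  -- extend to G
  let o : G → G := fun x => ((x : G ⧸ H).out : G)
  have ho : ∀ x : G, (o x)⁻¹ * x ∈ H := by
    intro x
    rw [← QuotientGroup.eq]
    exact Quotient.out_eq _
  have hoo : ∀ (x : G) (k : H), o (x * k) = o x := by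
    intro x k
    have : ((x * (k : G) : G) : G ⧸ H) = (x : G ⧸ H) := by
      rw [QuotientGroup.eq]
      simp
    change ((((x * (k : G) : G) : G ⧸ H)).out : G) = _
    rw [this]
  let r : G → H := fun x => ⟨(o x)⁻¹ * x, ho x⟩
  have hor : ∀ x, o x * r x = x := by
    intro x
    change o x * ((o x)⁻¹ * x) = x
    group
  have hoE : ∀ (x : G) (k : H), o (o x * k) = o x := by
    intro x k
    have : o x * (k : G) = x * ((r x)⁻¹ * k : H) := by
      conv_rhs => rw [← hor x]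
      rw [hor x]
      have h3 : o x = x * ((r x : G))⁻¹ := by
        rw [eq_mul_inv_iff_mul_eq]; exact hor x
      rw [h3]
      push_cast
      group
    rw [this, hoo]
  let Φ : G ⊕ G → G := fun p => Sum.elim (fun x => o x * (f (Sum.inl (r x)) : G))
    (fun x => o x * (f (Sum.inr (r x)) : G)) p
  have hΦinj : Function.Injective Φ := by
    intro p q hpq
    rcases p with x | x <;> rcases q with z | z
    · have hpq' : o x * (f (Sum.inl (r x)) : G) = o z * (f (Sum.inl (r z)) : G) := hpq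
      have h1 : o x = o z := by rw [← hoE x (f (Sum.inl (r x))), hpq', hoE]
      rw [h1] at hpq'
      have h2 := hf (Subtype.ext (mul_left_cancel hpq'))
      have h3 : r x = r z := by simpa using h2
      rw [← hor x, ← hor z, h1, h3]
    · have hpq' : o x * (f (Sum.inl (r x)) : G) = o z * (f (Sum.inr (r z)) : G) := hpq
      have h1 : o x = o z := by rw [← hoE x (f (Sum.inl (r x))), hpq', hoE]
      rw [h1] at hpq'
      have h2 := hf (Subtype.ext (mul_left_cancel hpq'))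
      simp at h2
    · have hpq' : o x * (f (Sum.inr (r x)) : G) = o z * (f (Sum.inl (r z)) : G) := hpq
      have h1 : o x = o z := by rw [← hoE x (f (Sum.inr (r x))), hpq', hoE]
      rw [h1] at hpq'
      have h2 := hf (Subtype.ext (mul_left_cancel hpq'))
      simp at h2
    · have hpq' : o x * (f (Sum.inr (r x)) : G) = o z * (f (Sum.inr (r z)) : G) := hpq
      have h1 : o x = o z := by rw [← hoE x (f (Sum.inr (r x))), hpq', hoE]
      rw [h1] at hpq'
      have h2 := hf (Subtype.ext (mul_left_cancel hpq'))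
      have h3 : r x = r z := by simpa using h2
      rw [← hor x, ← hor z, h1, h3]
  have hΦ1 : ∀ x : G, ∃ i, x * (s₁ i : G) = Φ (Sum.inl x) := by
    intro x
    obtain ⟨i, hi⟩ := hf1 (r x)
    refine ⟨i, ?_⟩
    change _ = o x * (f (Sum.inl (r x)) : G)
    rw [← hi]
    push_cast
    rw [← mul_assoc, hor]
  have hΦ2 : ∀ x : G, ∃ i, x * (s₂ i : G) = Φ (Sum.inr x) := by
    intro x
    obtain ⟨i, hi⟩ := hf2 (r x)
    refine ⟨i, ?_⟩
    change _ = o x * (f (Sum.inr (r x)) : G)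
    rw [← hi]
    push_cast
    rw [← mul_assoc, hor]
  -- Schroeder-Bernstein
  let C : Set G := (Set.range fun x => Φ (Sum.inl x))ᶜ
  have hC : ∀ x, Φ (Sum.inr x) ∈ C := by
    rintro x ⟨z, hz⟩
    exact absurd (hΦinj hz) (by simp)
  obtain ⟨b, hb, hbR⟩ := Function.Embedding.schroeder_bernstein_of_rel
    (f := fun x : G => (⟨Φ (Sum.inr x), hC x⟩ : C)) (g := fun c : C => (c : G))
    (fun x z hxz => by
      have h6 : Φ (Sum.inr x) = Φ (Sum.inr z) := congrArg Subtype.val hxz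
      have := hΦinj h6
      simpa using this) Subtype.val_injective
    (fun x c => ∃ j, x * (s₂ j : G) = c) (fun x => hΦ2 x)
    (fun c => ⟨j0, by simp [hj0]⟩)
  choose i1 hi1 using hΦ1
  choose i2 hi2 using hbR
  refine ⟨m, n, le_rfl, fun i => {x | ∃ v, i1 v = i ∧ x⁻¹ = v * s₁ i},
    fun j => {x | ∃ v, i2 v = j ∧ x⁻¹ = v * s₂ j}, fun i => s₁ i, fun j => s₂ j, ?_, ?_, ?_⟩
  · intro x
    by_cases hx : x⁻¹ ∈ Set.range fun x => Φ (Sum.inl x)
    · obtain ⟨v, hv⟩ := hx
      refine ⟨Sum.inl (i1 v), ⟨v, rfl, ?_⟩, ?_⟩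
      · rw [hi1]; exact hv.symm
      · rintro (i | j) hp
        · obtain ⟨w, hw1, hw2⟩ := hp
          have : w = v := by
            rw [← hw1, hi1 w] at hw2
            have h5 := hΦinj (hw2.symm.trans hv.symm)
            simpa using h5
          rw [← hw1, this]
        · obtain ⟨w, hw1, hw2⟩ := hp
          exfalso
          rw [← hw1, hi2 w] at hw2
          have : (b w : G) ∈ C := (b w).2
          apply this
          rw [← hw2]
          exact ⟨v, hv⟩
    · obtain ⟨v, hv⟩ := hb.2 ⟨x⁻¹, hx⟩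
      have hv' : (b v : G) = x⁻¹ := by rw [hv]
      refine ⟨Sum.inr (i2 v), ⟨v, rfl, ?_⟩, ?_⟩
      · rw [hi2]; exact hv'.symm
      · rintro (i | j) hp
        · obtain ⟨w, hw1, hw2⟩ := hp
          exfalso
          apply hx
          rw [← hw1, hi1 w] at hw2
          exact ⟨w, hw2.symm⟩
        · obtain ⟨w, hw1, hw2⟩ := hp
          have : w = v := by
            rw [← hw1, hi2 w] at hw2
            exact hb.1 (Subtype.ext (hw2.symm.trans hv'.symm))
          rw [← hw1, this]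
  · intro x
    refine ⟨i1 x⁻¹, ⟨x⁻¹, rfl, by group⟩, ?_⟩
    rintro i ⟨v, hv1, hv2⟩
    have : v = x⁻¹ := by
      rw [mul_inv_rev, inv_inv] at hv2
      exact (mul_right_cancel hv2).symm
    rw [← hv1, this]
  · intro x
    refine ⟨i2 x⁻¹, ⟨x⁻¹, rfl, by group⟩, ?_⟩
    rintro i ⟨v, hv1, hv2⟩
    have : v = x⁻¹ := by
      rw [mul_inv_rev, inv_inv] at hv2
      exact (mul_right_cancel hv2).symm
    rw [← hv1, this]

end Pool.Agent.Lib.MP_354e85_al
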