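import Pool.Agent.Lib.MP_354e85_al.Cost
import Pool.Agent.Lib.MP_354e85_al.Grad

open MeasureTheory Set

namespace Pool.Agent.Lib.MP_354e85_al

theorem cost_transport' {G : Type*} [Group G] [Countable G] {ε : ℝ} (hcost : CostGE G ε)
    {X : Type*} [MeasurableSpace X] [StandardBorelSpace X] (μ : Measure X)
    [IsProbabilityMeasure μ] [NullSingletonClass μ] (act : G → X → X) (h1 : ∀ x, act 1 x = x)
    (hmul : ∀ g h x, act (g * h) x = act g (act h x))
    (hmp : ∀ g, MeasurePreserving (act g) μ μ)
    (hfree : ∀ g, g ≠ 1 → μ {x | act g x = x} = 0) (ι : Type*) [Fintype ι] (s : ι → G)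
    (B : ι → Set X) (hB : ∀ i, MeasurableSet (B i))
    (hconn : ∀ x g, Relation.ReflTransGen
      (fun y z => ∃ i, (y ∈ B i ∧ act (s i) y = z) ∨ (z ∈ B i ∧ act (s i) z = y)) x (act g x)) :
    ENNReal.ofReal (1 + ε) ≤ ∑ i, μ (B i) := by
  let e := Fintype.equivFin ι
  have := cost_transport hcost μ act h1 hmul hmp hfree (Fintype.card ι) (fun i => s (e.symm i))
    (fun i => B (e.symm i)) (fun i => hB _) (by
      intro x g
      refine Relation.ReflTransGen.mono (fun y z hyz => ?_) _ _ (hconn x g)
      obtain ⟨i, hi⟩ := hyz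
      exact ⟨e i, by simpa using hi⟩)
  rwa [Equiv.sum_comp e.symm (fun i => μ (B i))] at this

theorem prob01 : IsProbabilityMeasure (volume.restrict (Icc (0 : ℝ) 1)) := ⟨by simp⟩

/-- The Bernoulli measure. -/
noncomputable def bern (G : Type*) : Measure (G → ℝ) :=
  haveI := prob01
  Measure.infinitePi (fun _ : G => volume.restrict (Icc (0 : ℝ) 1))

instance (G : Type*) : IsProbabilityMeasure (bern G) := by
  have := prob01
  unfold bern
  infer_instance

theorem bern_diag {G : Type*} [Countable G] (a b : G) (hab : a ≠ b) :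
    bern G {y | y a = y b} = 0 := by
  have := prob01
  have h := Measure.infinitePi_map_eval_prod (P := fun _ : G => volume.restrict (Icc (0 : ℝ) 1))
    hab
  have hm : MeasurableSet {p : ℝ × ℝ | p.1 = p.2} := measurableSet_eq_fun measurable_fst
    measurable_snd
  have h2 : (bern G).map (fun y => (y a, y b)) {p : ℝ × ℝ | p.1 = p.2} = 0 := by
    unfold bern
    rw [h, Measure.measure_prod_null hm]
    filter_upwards with x
    have : Prod.mk x ⁻¹' {p : ℝ × ℝ | p.1 = p.2} = {x} := by
      ext z
      simp [eq_comm]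
    rw [this]
    simp
  rw [Measure.map_apply (by fun_prop) hm] at h2
  exact h2

theorem bern_shift {G : Type*} [Group G] (g : G) :
    MeasurePreserving (fun (y : G → ℝ) (h : G) => y (g⁻¹ * h)) (bern G) (bern G) := by
  have := prob01
  refine ⟨by fun_prop, ?_⟩
  unfold bern
  exact Measure.map_infinitePi_infinitePi_of_inj
    (P := fun _ : G => volume.restrict (Icc (0 : ℝ) 1)) (f := fun h : G => g⁻¹ * h)
    (mul_right_injective g⁻¹)

instance {G : Type*} [Nonempty G] [Countable G] : NullSingletonClass (bern G) := by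
  have := prob01
  constructor
  intro y
  obtain ⟨a⟩ := (inferInstance : Nonempty G)
  have h1 : bern G ((fun z : G → ℝ => z a) ⁻¹' {y a}) = 0 := by
    rw [← Measure.map_apply (by fun_prop) (measurableSet_singleton _)]
    unfold bern
    rw [Measure.infinitePi_map_eval]
    simp
  apply measure_mono_null _ h1
  intro z hz
  rw [mem_singleton_iff] at hz
  rw [hz]
  rfl

theorem cost_rank {G : Type*} [Group G] [Countable G] {ε : ℝ} (hcost : CostGE G ε)
    (K : Subgroup G) (hK : K.FiniteIndex) (T : Finset G) (hT : Subgroup.closure (T : Set G) = K) :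
    1 + ε * K.index ≤ T.card := by
  classical
  have := prob01
  let : MeasurableSpace (G ⧸ K) := ⊤
  have : Fintype (G ⧸ K) := Fintype.ofFinite _
  have : DiscreteMeasurableSpace (G ⧸ K) := ⟨fun _ => trivial⟩
  have hidx : K.index = Fintype.card (G ⧸ K) := by
    rw [Subgroup.index_eq_card, Nat.card_eq_fintype_card]
  set m := Fintype.card (G ⧸ K) with hm
  have hmpos : 0 < m := Fintype.card_pos
  let ν : Measure (G ⧸ K) := (m : ENNReal)⁻¹ • Measure.count
  have hν1 : ∀ c : G ⧸ K, ν {c} = (m : ENNReal)⁻¹ := by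
    intro c
    simp [ν]
  have hνp : IsProbabilityMeasure ν := by
    constructor
    simp only [ν, Measure.smul_apply, smul_eq_mul]
    rw [Measure.count_apply MeasurableSet.univ]
    simp only [Set.encard_univ, ENat.card_eq_coe_fintype_card]
    rw [← hm]
    exact ENNReal.inv_mul_cancel (by simpa using hmpos.ne') (by simp)
  have hνg : ∀ g : G, MeasurePreserving (fun c : G ⧸ K => g • c) ν ν := by
    intro g
    refine ⟨measurable_of_finite _, ?_⟩
    ext s hs
    rw [Measure.map_apply (measurable_of_finite _) hs]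
    simp only [ν, Measure.smul_apply, smul_eq_mul]
    rw [Measure.count_apply hs, Measure.count_apply (measurable_of_finite (fun c : G ⧸ K => g • c) hs),
      encard_preimage_of_bijective (MulAction.bijective g)]
  let μ : Measure ((G ⧸ K) × (G → ℝ)) := ν.prod (bern G)
  have : NullSingletonClass μ := by
    constructor
    rintro ⟨c, y⟩
    have : ({(c, y)} : Set ((G ⧸ K) × (G → ℝ))) = {c} ×ˢ {y} := by simp
    rw [this, Measure.prod_prod, measure_singleton y, mul_zero]
  let act : G → (G ⧸ K) × (G → ℝ) → (G ⧸ K) × (G → ℝ) :=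
    fun g p => (g • p.1, fun h => p.2 (g⁻¹ * h))
  let c0 : G ⧸ K := ((1 : G) : G ⧸ K)
  let sf : T ⊕ {c : G ⧸ K // c ≠ c0} → G := Sum.elim (fun t => (t : G)) (fun c => c.1.out)
  have hbound := cost_transport' hcost μ act ?_ ?_ ?_ ?_ (T ⊕ {c : G ⧸ K // c ≠ c0})
    sf (fun _ => {c0} ×ˢ univ)
    (fun _ => (MeasurableSet.of_discrete).prod MeasurableSet.univ) ?_
  · have hμ : μ ({c0} ×ˢ univ) = (m : ENNReal)⁻¹ := by
      change ν.prod (bern G) ({c0} ×ˢ univ) = _
      rw [Measure.prod_prod, hν1, measure_univ, mul_one]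
    have hc1 : Fintype.card (T ⊕ {c : G ⧸ K // c ≠ c0}) = T.card + (m - 1) := by
      rw [Fintype.card_sum, Fintype.card_coe, Fintype.card_subtype_compl, Fintype.card_subtype_eq]
    simp only [hμ, Finset.sum_const, Finset.card_univ, hc1, nsmul_eq_mul] at hbound
    have h2 : ENNReal.ofReal (1 + ε) * m ≤ ((T.card + (m - 1) : ℕ) : ENNReal) := by
      calc ENNReal.ofReal (1 + ε) * m ≤ (((T.card + (m - 1) : ℕ) : ENNReal) * (m : ENNReal)⁻¹) * m :=
            mul_le_mul_left hbound _
        _ = ((T.card + (m - 1) : ℕ) : ENNReal) := by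
            rw [mul_assoc, ENNReal.inv_mul_cancel (by simpa using hmpos.ne') (by simp), mul_one]
    have h3 : (1 + ε) * m ≤ ((T.card + (m - 1) : ℕ) : ℝ) := by
      rcases le_or_gt (1 + ε) 0 with hε | hε
      · have : (0 : ℝ) ≤ m := by positivity
        have h4 : (1 + ε) * m ≤ 0 := mul_nonpos_of_nonpos_of_nonneg hε this
        exact h4.trans (by positivity)
      · have h5 := ENNReal.toReal_mono (by simp) h2
        rw [ENNReal.toReal_mul, ENNReal.toReal_ofReal hε.le, ENNReal.toReal_natCast,
          ENNReal.toReal_natCast] at h5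
        exact h5
    have h6 : ((m - 1 : ℕ) : ℝ) = m - 1 := by
      rw [Nat.cast_sub hmpos]; simp
    push_cast at h3
    rw [h6] at h3
    rw [hidx]
    linarith
  · rintro ⟨c, y⟩
    simp [act]
  · rintro g h ⟨c, y⟩
    simp only [act, mul_smul, mul_inv_rev]
    congr 1
    funext k
    rw [mul_assoc]
  · intro g
    exact (hνg g).prod (bern_shift g)
  · intro g hg
    have hsub : {x | act g x = x} ⊆ univ ×ˢ {y : G → ℝ | y g⁻¹ = y 1} := by
      rintro ⟨c, y⟩ h
      refine ⟨trivial, ?_⟩
      have h2 : (fun h => y (g⁻¹ * h)) = y := congrArg Prod.snd h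
      have := congrFun h2 1
      simpa using this
    apply measure_mono_null hsub
    change ν.prod (bern G) _ = 0
    rw [Measure.prod_prod, bern_diag _ _ (by simpa using hg), mul_zero]
  · -- connectivity
    set R : (G ⧸ K) × (G → ℝ) → (G ⧸ K) × (G → ℝ) → Prop := fun y z =>
      ∃ i : T ⊕ {c : G ⧸ K // c ≠ c0}, (y ∈ ({c0} : Set (G ⧸ K)) ×ˢ (univ : Set (G → ℝ)) ∧
        act (sf i) y = z) ∨
        (z ∈ ({c0} : Set (G ⧸ K)) ×ˢ (univ : Set (G → ℝ)) ∧
        act (sf i) z = y) with hR
    have hact1 : ∀ x, act 1 x = x := by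
      rintro ⟨c, y⟩
      simp [act]
    have hactmul : ∀ g h x, act (g * h) x = act g (act h x) := by
      rintro g h ⟨c, y⟩
      simp only [act, mul_smul, mul_inv_rev]
      congr 1
      funext k
      rw [mul_assoc]
    have hsymm : ∀ x z, Relation.ReflTransGen R x z → Relation.ReflTransGen R z x := by
      intro x z h
      have : Std.Symm R := ⟨by
        rintro a b ⟨i, hi⟩
        exact ⟨i, hi.symm⟩⟩
      exact Std.Symm.symm x z h
    have hKc0 : ∀ k ∈ K, k • c0 = c0 := by
      intro k hk
      change ((k * 1 : G) : G ⧸ K) = ((1 : G) : G ⧸ K)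
      rw [QuotientGroup.eq]
      simpa using hk
    -- K moves
    have hKmove : ∀ k ∈ K, ∀ y, Relation.ReflTransGen R (c0, y) (act k (c0, y)) := by
      intro k hk
      rw [← hT] at hk
      induction hk using Subgroup.closure_induction with
      | mem x hx =>
        intro y
        apply Relation.ReflTransGen.single
        exact ⟨Sum.inl ⟨x, hx⟩, Or.inl ⟨⟨rfl, trivial⟩, rfl⟩⟩
      | one => intro y; rw [hact1]
      | mul a b ha hb iha ihb =>
        intro y
        rw [hactmul]
        have e1 : act b (c0, y) = (c0, fun h => y (b⁻¹ * h)) := by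
          change (b • c0, _) = _
          rw [hKc0 b (hT ▸ hb)]
        refine (ihb y).trans ?_
        rw [e1]
        exact iha _
      | inv a ha iha =>
        intro y
        apply hsymm
        have e1 : act a⁻¹ (c0, y) = (c0, fun h => y ((a⁻¹)⁻¹ * h)) := by
          change (a⁻¹ • c0, _) = _
          rw [hKc0 a⁻¹ (K.inv_mem (hT ▸ ha))]
        have h2 := iha (fun h => y ((a⁻¹)⁻¹ * h))
        rw [← e1, ← hactmul, mul_inv_cancel, hact1] at h2
        exact h2
    -- every point is connected to the base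
    have hbase : ∀ c : G ⧸ K, ∃ u : G, (u : G ⧸ K) = c ∧ ∀ y,
        Relation.ReflTransGen R (c, y) (act u⁻¹ (c, y)) := by
      intro c
      by_cases hc : c = c0
      · refine ⟨1, hc.symm, ?_⟩
        intro y
        rw [inv_one, hact1]
      · refine ⟨c.out, QuotientGroup.out_eq' c, ?_⟩
        intro y
        apply hsymm
        apply Relation.ReflTransGen.single
        refine ⟨Sum.inr ⟨c, hc⟩, Or.inl ⟨⟨?_, trivial⟩, ?_⟩⟩
        · change (c.out)⁻¹ • c = c0
          rw [inv_smul_eq_iff]
          change c = ((c.out * 1 : G) : G ⧸ K)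
          rw [mul_one]
          exact (QuotientGroup.out_eq' c).symm
        · change act c.out (act (c.out)⁻¹ (c, y)) = _
          rw [← hactmul, mul_inv_cancel, hact1]
    rintro ⟨c, y⟩ g
    obtain ⟨u, hu, hup⟩ := hbase c
    obtain ⟨v, hv, hvp⟩ := hbase (g • c)
    have hk : v⁻¹ * g * u ∈ K := by
      rw [mul_assoc, ← QuotientGroup.eq, hv, ← hu]
      rfl
    have e1 : act u⁻¹ (c, y) = (c0, fun h => y ((u⁻¹)⁻¹ * h)) := by
      change (u⁻¹ • c, _) = _
      congr 1
      rw [inv_smul_eq_iff, ← hu]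
      change (u : G ⧸ K) = ((u * 1 : G) : G ⧸ K)
      rw [mul_one]
    have h1 := hup y
    have h2 := hKmove _ hk (fun h => y ((u⁻¹)⁻¹ * h))
    rw [← e1, ← hactmul] at h2
    have h3 := hsymm _ _ (hvp (fun h => y (g⁻¹ * h)))
    have e3 : ((g • c, fun h => y (g⁻¹ * h)) : (G ⧸ K) × (G → ℝ)) = act g (c, y) := rfl
    rw [e3, ← hactmul] at h3
    have e4 : v⁻¹ * g * u * u⁻¹ = v⁻¹ * g := by group
    rw [e4] at h2
    exact (h1.trans h2).trans h3

end Pool.Agent.Lib.MP_354e85_al
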